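import Mathlib

/-!
Definitions for MP_0cd237_al: the fields `[t_1, …, t_r]` and `M_r^s`, and towers over a field.
-/

namespace ALG

open Polynomial IntermediateField

variable {k K : Type*} [Field k] [Field K] [Algebra k K]

/-- `[t_1, …, t_r]`: the elements of `K` algebraic over `k(t_1, …, t_r)`. -/
noncomputable def bracket {r : ℕ} (t : Fin r → K) : IntermediateField k K :=
  (algebraicClosure (adjoin k (Set.range t)) K).restrictScalars k

/-- `M k x r s` is the field `M_r^s` for `s ≥ 1` (the value at `s = 0` is a dummy):
`M_r^1 = k(x_1, …, x_n)`, and `M_r^(s+1)` is the compositum of all `[t_1, …, t_r]` with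
`t_1, …, t_r ∈ M_r^s`. -/
noncomputable def M (k : Type*) [Field k] {K : Type*} [Field K] [Algebra k K] {n : ℕ}
    (x : Fin n → K) (r : ℕ) : ℕ → IntermediateField k K
  | 0 => adjoin k (Set.range x)
  | 1 => adjoin k (Set.range x)
  | (s + 2) => ⨆ t : {t : Fin r → K // ∀ i, t i ∈ M k x r (s + 1)}, bracket t.1

/-- `Tower d L₀ L`: the field `L` is obtained from `L₀` by finitely many steps, each of which
adjoins either an element with a positive power in the field reached so far (any radical),
or a root of a nonzero polynomial of degree at most `d` over the field reached so far. -/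
inductive Tower (d : ℕ) (L₀ : IntermediateField k K) : IntermediateField k K → Prop
  | base : Tower d L₀ L₀
  | radical {L : IntermediateField k K} (z : K) (q : ℕ) (hL : Tower d L₀ L) (hq : 1 ≤ q)
      (hz : z ^ q ∈ L) : Tower d L₀ (L ⊔ k⟮z⟯)
  | degree {L : IntermediateField k K} (z : K) (P : L[X]) (hL : Tower d L₀ L) (hP : P ≠ 0)
      (hd : P.natDegree ≤ d) (hz : aeval z P = 0) : Tower d L₀ (L ⊔ k⟮z⟯)

end ALG
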