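import Mathlib

/-!
Group facts for the superposition depth theorem (MP_0cd237_al).
-/

namespace ALG

open Equiv

variable {A : Type*} [Group A] {α : Type*} [Fintype α] [DecidableEq α]

/-- a normal subgroup of `A` which acts nontrivially has image containing the alternating group -/
theorem alt_le_map_of_normal (π : A →* Perm α) (hπ : Function.Surjective π)
    (h5 : 5 ≤ Nat.card α) (H : Subgroup A) [H.Normal] (hne : ¬ H ≤ π.ker) :
    alternatingGroup α ≤ H.map π := by
  have : (H.map π).Normal := Subgroup.Normal.map ‹_› π hπ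
  apply Equiv.Perm.alternatingGroup_le_of_normal h5
  rw [Subgroup.nontrivial_iff_ne_bot]
  intro h
  exact hne ((Subgroup.map_eq_bot_iff H).1 h)

/-- commutator step -/
theorem alt_le_map_of_comm (π : A →* Perm α) (h5 : 5 ≤ Nat.card α) (H₁ H₂ H' : Subgroup A)
    (h1 : alternatingGroup α ≤ H₁.map π) (h2 : alternatingGroup α ≤ H₂.map π)
    (hc : ⁅H₁, H₂⁆ ≤ H') : alternatingGroup α ≤ H'.map π := by
  have h : ⁅alternatingGroup α, alternatingGroup α⁆ ≤ H'.map π := by
    refine le_trans (Subgroup.commutator_mono h1 h2) ?_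
    rw [← Subgroup.map_commutator]
    exact Subgroup.map_mono hc
  rwa [commutator_alternatingGroup_eq_self h5] at h

/-- finite intersections of normal subgroups -/
theorem alt_le_map_inf (π : A →* Perm α) (h5 : 5 ≤ Nat.card α) {ι : Type*} (s : Finset ι)
    (H : ι → Subgroup A) (hn : ∀ i ∈ s, (H i).Normal) (hs : alternatingGroup α ≤ (⊤ : Subgroup A).map π)
    (h : ∀ i ∈ s, alternatingGroup α ≤ (H i).map π) :
    alternatingGroup α ≤ (⨅ i ∈ s, H i).map π ∧ (⨅ i ∈ s, H i).Normal := by
  classical
  induction s using Finset.induction_on with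
  | empty => simp only [Finset.notMem_empty, iInf_false, iInf_top]; exact ⟨hs, inferInstance⟩
  | insert a s ha ih =>
    obtain ⟨ih1, ih2⟩ := ih (fun i hi => hn i (Finset.mem_insert_of_mem hi))
      (fun i hi => h i (Finset.mem_insert_of_mem hi))
    have := hn a (Finset.mem_insert_self a s)
    have := ih2
    rw [Finset.iInf_insert]
    refine ⟨alt_le_map_of_comm π h5 (H a) (⨅ i ∈ s, H i) _ (h a (Finset.mem_insert_self a s)) ih1
      (Subgroup.commutator_le_inf _ _), inferInstance⟩

/-- localisation -/
theorem exists_le_ker_of_inf (π : A →* Perm α) (hπ : Function.Surjective π)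
    (h5 : 5 ≤ Nat.card α) {ι : Type*} (s : Finset ι)
    (H : ι → Subgroup A) (hn : ∀ i ∈ s, (H i).Normal)
    (h : (⨅ i ∈ s, H i) ≤ π.ker) : ∃ i ∈ s, H i ≤ π.ker := by
  by_contra hcon
  push Not at hcon
  have h1 := (alt_le_map_inf π h5 s H hn
    (by rw [← MonoidHom.range_eq_map, MonoidHom.range_eq_top.2 hπ]; exact le_top)
    (fun i hi => by have := hn i hi; exact alt_le_map_of_normal π hπ h5 (H i) (hcon i hi))).1
  have h2 : (⨅ i ∈ s, H i).map π = ⊥ := (Subgroup.map_eq_bot_iff _).2 h
  rw [h2] at h1
  have h3 : Nontrivial (alternatingGroup α) := by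
    apply alternatingGroup.nontrivial_of_three_le_card
    omega
  rw [Subgroup.nontrivial_iff_ne_bot] at h3
  exact h3 (le_bot_iff.1 h1)

/-- the alternating group has no proper subgroup of small index -/
theorem eq_top_of_index_lt (h5 : 5 ≤ Nat.card α) (U : Subgroup (alternatingGroup α))
    (hU : U.index < Nat.card α) : U = ⊤ := by
  have : IsSimpleGroup (alternatingGroup α) := alternatingGroup.isSimpleGroup h5
  have := Subgroup.normalCore_normal U
  rcases (Subgroup.normalCore_normal U).eq_bot_or_eq_top with h | h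
  · exfalso
    have hinj : Function.Injective (MulAction.toPermHom (alternatingGroup α) (alternatingGroup α ⧸ U)) := by
      rw [← MonoidHom.ker_eq_bot_iff, ← Subgroup.normalCore_eq_ker, h]
    have hc := Nat.card_le_card_of_injective _ hinj
    rw [Nat.card_perm] at hc
    change Nat.card (alternatingGroup α) ≤ (U.index).factorial at hc
    have h2 : 2 * Nat.card (alternatingGroup α) = (Nat.card α).factorial := by
      have : Nontrivial α := by
        rw [← Finite.one_lt_card_iff_nontrivial]; omega
      rw [Nat.card_eq_fintype_card, two_mul_card_alternatingGroup, Fintype.card_perm,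
        Nat.card_eq_fintype_card]
    obtain ⟨N, hN⟩ : ∃ N, Nat.card α = N + 1 := ⟨Nat.card α - 1, by omega⟩
    have h3 : (U.index).factorial ≤ N.factorial := Nat.factorial_le (by omega)
    rw [hN, Nat.factorial_succ] at h2
    have h4 : 0 < N.factorial := Nat.factorial_pos N
    nlinarith
  · exact top_le_iff.1 (h ▸ Subgroup.normalCore_le U)

/-- index step -/
theorem alt_le_map_of_index (π : A →* Perm α) (h5 : 5 ≤ Nat.card α) (H' H : Subgroup A)
    (h1 : alternatingGroup α ≤ H.map π) (hi0 : H'.relIndex H ≠ 0)
    (hi : H'.relIndex H < Nat.card α) : alternatingGroup α ≤ H'.map π := by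
  -- the subgroup `π(H') ∩ A_N` of `A_N`
  set U := (H'.map π).subgroupOf (alternatingGroup α) with hUdef
  have h2 : (H'.map π).relIndex (H.map π) ∣ H'.relIndex H := by
    rw [← Subgroup.relIndex_comap]
    exact Subgroup.relIndex_dvd_of_le_left _ (Subgroup.le_comap_map π H')
  have h3 : (H'.map π).relIndex (alternatingGroup α) ≤ (H'.map π).relIndex (H.map π) := by
    apply Subgroup.relIndex_le_of_le_right h1
    intro h0
    rw [h0] at h2
    exact hi0 (Nat.eq_zero_of_zero_dvd h2)
  have h4 : U = ⊤ := by
    apply eq_top_of_index_lt h5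
    change (H'.map π).relIndex (alternatingGroup α) < _
    exact lt_of_le_of_lt (h3.trans (Nat.le_of_dvd (Nat.pos_of_ne_zero hi0) h2)) hi
  rwa [hUdef, Subgroup.subgroupOf_eq_top] at h4

end ALG
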