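import Mathlib

/-!
Algebraic closure of an intermediate field, transcendence degree.
-/

set_option linter.style.haveILetI false

namespace ALG

open Polynomial IntermediateField

variable {k K : Type*} [Field k] [Field K] [Algebra k K]

/-- the elements of `K` algebraic over `E` -/
noncomputable def ac (E : IntermediateField k K) : IntermediateField k K :=
  (algebraicClosure E K).restrictScalars k

theorem mem_ac {E : IntermediateField k K} {z : K} : z ∈ ac E ↔ IsAlgebraic E z := by
  rw [ac, IntermediateField.mem_restrictScalars, mem_algebraicClosure_iff']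
  exact isAlgebraic_iff_isIntegral.symm

theorem le_ac (E : IntermediateField k K) : E ≤ ac E := fun z hz =>
  mem_ac.2 (isAlgebraic_algebraMap (R := E) (A := K) ⟨z, hz⟩)

theorem ac_mono {E E' : IntermediateField k K} (h : E ≤ E') : ac E ≤ ac E' := fun _ hz =>
  mem_ac.2 (IsAlgebraic.tower_top_of_subalgebra_le (A := E.toSubalgebra) (B := E'.toSubalgebra)
    h (mem_ac.1 hz))

theorem ac_ac (E : IntermediateField k K) : ac (ac E) = ac E := by
  apply le_antisymm _ (le_ac _)
  intro z hz
  have h1 : IsAlgebraic (algebraicClosure E K) z := mem_ac.1 hz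
  exact mem_ac.2 (h1.restrictScalars E)

theorem ac_le {E E' : IntermediateField k K} (h : E ≤ ac E') : ac E ≤ ac E' :=
  (ac_mono h).trans_eq (ac_ac E')

open IntermediateField.algebraAdjoinAdjoin in
/-- independent elements in the algebraic closure of few elements -/
theorem card_le_of_indep {m : ℕ} {g : Fin m → K} (hg : AlgebraicIndependent k g) {ι : Type*}
    [Finite ι] (u : ι → K) (h : ∀ j, g j ∈ ac (adjoin k (Set.range u))) : m ≤ Nat.card ι := by
  have h1 : (AlgebraicIndependent.matroid k K).Indep (Set.range g) := by
    rw [AlgebraicIndependent.matroid_indep_iff]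
    exact hg.to_subtype_range
  have h2 : Set.range g ⊆ (AlgebraicIndependent.matroid k K).closure (Set.range u) := by
    rw [AlgebraicIndependent.matroid_closure_eq]
    rintro _ ⟨j, rfl⟩
    have h3 : IsAlgebraic (adjoin k (Set.range u)) (g j) := mem_ac.1 (h j)
    rw [← IsFractionRing.isAlgebraic_iff (Algebra.adjoin k (Set.range u))] at h3
    rw [SetLike.mem_coe]
    exact h3
  have h4 := h1.encard_le_eRk_of_subset h2
  rw [Matroid.eRk_closure_eq] at h4
  have h5 := h4.trans (Matroid.eRk_le_encard _ _)
  have h6 : (Set.range g).encard = m := by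
    rw [← Set.image_univ, hg.injective.injOn.encard_image, Set.encard_univ]
    simp
  have h7 : (Set.range u).encard ≤ Nat.card ι := by
    rw [← Set.image_univ]
    refine (Set.encard_image_le _ _).trans ?_
    rw [Set.encard_univ, ENat.card_eq_coe_natCard]
  exact_mod_cast h6 ▸ h5.trans h7

end ALG
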