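import Pool.Agent.H45.ALG.Fix
import Pool.Agent.H45.ALG.Ac

/-!
The Kummer step.
-/

set_option linter.style.haveILetI false

namespace ALG

open Polynomial IntermediateField

variable {k K : Type*} [Field k] [Field K] [Algebra k K]

/-- a compositum with an algebraic part is a span -/
theorem sup_le_span (F U : IntermediateField k K) (hF : ac F = ⊤) {z : K} (hz : z ∈ F ⊔ U) :
    z ∈ Submodule.span U (F : Set K) := by
  have h1 : F ⊔ U ≤ (adjoin F (U : Set K)).restrictScalars k := by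
    refine sup_le ?_ ?_
    · intro x hx
      rw [mem_restrictScalars]
      exact _root_.algebraMap_mem (adjoin F (U : Set K)) (⟨x, hx⟩ : F)
    · intro x hx
      rw [mem_restrictScalars]
      exact subset_adjoin F _ hx
  have h2 : z ∈ (adjoin F (U : Set K)).toSubalgebra := h1 hz
  rw [adjoin_toSubalgebra_of_isAlgebraic
    (fun x _ => mem_ac.1 (hF ▸ mem_top : x ∈ ac F))] at h2
  have h3 : ∀ x ∈ Algebra.adjoin F (U : Set K), x ∈ Algebra.adjoin U (F : Set K) := by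
    intro x hx
    induction hx using Algebra.adjoin_induction with
    | mem x hx => exact _root_.algebraMap_mem (Algebra.adjoin U (F : Set K)) (⟨x, hx⟩ : U)
    | algebraMap x => exact Algebra.subset_adjoin x.2
    | add x y _ _ hx hy => exact add_mem hx hy
    | mul x y _ _ hx hy => exact mul_mem hx hy
  have h4 := h3 z h2
  have h5 : z ∈ Subalgebra.toSubmodule (Algebra.adjoin U (F : Set K)) := h4
  rw [Algebra.adjoin_eq_span] at h5
  have h6 : ((Submonoid.closure (F : Set K) : Submonoid K) : Set K) = (F : Set K) := by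
    have := Submonoid.closure_eq (F.toSubfield.toSubring.toSubmonoid)
    exact congrArg (fun S : Submonoid K => (S : Set K)) this
  rwa [h6] at h5

/-- eigenvectors in `U` -/
theorem exists_eigen (F U : IntermediateField k K) (hF : ac F = ⊤)
    (hU : ∀ σ ∈ F.fixingSubgroup, ∀ z ∈ U, σ z ∈ U) {z : K} (hz : z ∈ F ⊔ U) (hz0 : z ≠ 0) :
    ∃ w ∈ U, w ≠ 0 ∧ ∀ σ ∈ F.fixingSubgroup, ∀ c : k, σ z = algebraMap k K c * z →
      σ w = algebraMap k K c * w := by
  classical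
  have h1 := sup_le_span F U hF hz
  obtain ⟨b, hbF, hbs, hbi⟩ := exists_linearIndependent U (F : Set K)
  rw [← hbs, Finsupp.mem_span_iff_linearCombination] at h1
  obtain ⟨c, hc⟩ := h1
  rw [Finsupp.linearCombination_apply, Finsupp.sum] at hc
  have hc0 : c ≠ 0 := by
    rintro rfl
    simp at hc
    exact hz0 hc.symm
  obtain ⟨i, hi⟩ := Finsupp.ne_iff.1 hc0
  refine ⟨c i, (c i).2, fun h => hi (Subtype.ext h), ?_⟩
  intro σ hσ a ha
  have hσU : ∀ x : U, σ x ∈ U := fun x => hU σ hσ x x.2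
  have haU : algebraMap k K a ∈ U := _root_.algebraMap_mem U a
  have h2 : ∑ j ∈ c.support, ((⟨σ (c j), hσU _⟩ : U) - (⟨algebraMap k K a, haU⟩ : U) * c j) •
      (j : K) = 0 := by
    have h3 : ∑ j ∈ c.support, (⟨σ (c j), hσU _⟩ : U) • (j : K) = σ z := by
      rw [← hc, map_sum]
      apply Finset.sum_congr rfl
      intro j _
      change σ (c j) * (j : K) = σ ((c j : K) * (j : K))
      rw [map_mul, mem_fs.1 hσ j (hbF j.2)]
    have h4 : ∑ j ∈ c.support, ((⟨algebraMap k K a, haU⟩ : U) * c j) • (j : K) =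
        algebraMap k K a * z := by
      rw [← hc, Finset.mul_sum]
      apply Finset.sum_congr rfl
      intro j _
      change (algebraMap k K a * (c j : K)) * (j : K) = algebraMap k K a * ((c j : K) * (j : K))
      ring
    simp_rw [sub_smul, Finset.sum_sub_distrib]
    rw [h3, h4, ha, sub_self]
  have h5 := linearIndependent_iff'.1 hbi c.support _ h2 i (Finsupp.mem_support_iff.2 hi)
  have h6 := congrArg Subtype.val h5
  simpa [sub_eq_zero] using h6

/-- Kummer step -/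
theorem kummer [IsAlgClosed k] [IsAlgClosed K] (p : ℕ) [ExpChar k p]
    (F U : IntermediateField k K) (hF : ac F = ⊤)
    (hU : ∀ σ ∈ F.fixingSubgroup, ∀ z ∈ U, σ z ∈ U) {y : K} (hy : y ≠ 0) {ℓ : ℕ} (hℓ : 1 ≤ ℓ)
    (hyF : y ^ ℓ ∈ F) (hfix : ∀ σ ∈ F.fixingSubgroup, σ ∈ U.fixingSubgroup → σ y = y) :
    ∃ (a : ℕ) (g h : K), g ∈ F ∧ g ∈ U ∧ h ∈ F ∧ g ≠ 0 ∧ h ≠ 0 ∧ (y ^ ℓ) ^ p ^ a = g * h ^ ℓ := by
  have halg : ∀ E : IntermediateField k K, F ≤ E → Algebra.IsAlgebraic E K := fun E hE =>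
    ⟨fun z => mem_ac.1 (ac_mono hE (hF ▸ mem_top))⟩
  haveI := halg F le_rfl
  haveI := halg (F ⊔ U) le_sup_left
  obtain ⟨a, ha⟩ := pow_mem_of_fixed p (F ⊔ U) (z := y) (by
    intro σ hσ
    rw [fixingSubgroup_sup, Subgroup.mem_inf] at hσ
    exact hfix σ hσ.1 hσ.2)
  obtain ⟨w, hwU, hw0, hw⟩ := exists_eigen F U hF hU ha (pow_ne_zero _ hy)
  obtain ⟨b, hb⟩ := pow_mem_of_fixed p F (z := y ^ p ^ a / w) (by
    intro σ hσ
    obtain ⟨c, hc⟩ := exists_algebraMap_of_pow (k := k) (a := σ (y ^ p ^ a)) (b := y ^ p ^ a) ℓ hℓ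
      (by rw [← map_pow, ← pow_mul, mul_comm, pow_mul, map_pow, mem_fs.1 hσ _ hyF])
    have hc0 : algebraMap k K c ≠ 0 := by
      intro h
      rw [h, zero_mul] at hc
      exact pow_ne_zero _ hy ((map_eq_zero σ).1 hc)
    rw [map_div₀, hc, hw σ hσ c hc, mul_div_mul_left _ _ hc0])
  have hyp : y ^ p ^ a ≠ 0 := pow_ne_zero _ hy
  have hh0 : (y ^ p ^ a / w) ^ p ^ b ≠ 0 := pow_ne_zero _ (div_ne_zero hyp hw0)
  have hg : (y ^ ℓ) ^ p ^ (a + b) = (w ^ p ^ b) ^ ℓ * ((y ^ p ^ a / w) ^ p ^ b) ^ ℓ := by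
    rw [← mul_pow, ← mul_pow, mul_div_cancel₀ _ hw0, pow_add]
    ring
  refine ⟨a + b, (w ^ p ^ b) ^ ℓ, (y ^ p ^ a / w) ^ p ^ b, ?_, pow_mem (pow_mem hwU _) _, hb,
    pow_ne_zero _ (pow_ne_zero _ hw0), hh0, hg⟩
  have h1 : (w ^ p ^ b) ^ ℓ = (y ^ ℓ) ^ p ^ (a + b) / ((y ^ p ^ a / w) ^ p ^ b) ^ ℓ := by
    rw [hg, mul_div_cancel_right₀ _ (pow_ne_zero _ hh0)]
  rw [h1]
  exact div_mem (pow_mem hyF _) (pow_mem hb _)

end ALG
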