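import Mathlib

/-!
Leading exponents.
-/

set_option linter.style.haveILetI false

namespace ALG

open MvPolynomial

/-- integer descent -/
theorem eq_zero_of_descent {m n : ℕ} (e : Fin m → Fin n) (he : Function.Injective e) (ℓ : ℕ)
    (hℓ : 2 ≤ ℓ) (Q : Fin m → ℕ) (hQ : ∀ j, Nat.Coprime ℓ (Q j)) (ν : Fin m → Fin n → ℤ)
    (hν : ∀ j i, ∃ r : ℤ, ν j i = (if e j = i then (Q j : ℤ) else 0) + ℓ * r)
    (c : Fin m → ℤ) (hc : ∀ i, ∑ j, c j * ν j i = 0) : ∀ j, c j = 0 := by
  classical
  have key : ∀ (b : ℕ) (c : Fin m → ℤ), (∀ i, ∑ j, c j * ν j i = 0) → ∀ j, (ℓ : ℤ) ^ b ∣ c j := by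
    intro b
    induction b with
    | zero => intro c _ j; simp
    | succ b ih =>
      intro c hc
      choose r hr using hν
      have h1 : ∀ j, (ℓ : ℤ) ∣ c j := by
        intro j
        have h2 := hc (e j)
        simp_rw [hr, mul_add, Finset.sum_add_distrib] at h2
        have h3 : ∑ x, c x * (if e x = e j then (Q x : ℤ) else 0) = c j * Q j := by
          rw [Finset.sum_eq_single j]
          · rw [if_pos rfl]
          · intro b _ hb
            rw [if_neg (fun h => hb (he h)), mul_zero]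
          · intro h; exact absurd (Finset.mem_univ j) h
        rw [h3] at h2
        have h4 : (ℓ : ℤ) ∣ ∑ x, c x * (ℓ * r x (e j)) :=
          Finset.dvd_sum (fun x _ => Dvd.intro (c x * r x (e j)) (by ring))
        have h5 : (ℓ : ℤ) ∣ c j * Q j := by
          have : c j * Q j = -∑ x, c x * (ℓ * r x (e j)) := by linarith
          rw [this]; exact (dvd_neg).2 h4
        exact (Int.isCoprime_iff_gcd_eq_one.2 (by exact_mod_cast hQ j)).dvd_of_dvd_mul_right h5
      choose c' hc' using h1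
      have h6 := ih c' (by
        intro i
        have h7 := hc i
        simp_rw [hc', mul_assoc] at h7
        rw [← Finset.mul_sum] at h7
        rcases mul_eq_zero.1 h7 with h | h
        · exfalso
          have : (ℓ : ℤ) = 0 := h
          omega
        · exact h)
      intro j
      rw [hc' j, pow_succ']
      exact mul_dvd_mul_left _ (h6 j)
  intro j
  by_contra h
  have h1 := key (c j).natAbs c hc j
  have h2 : ℓ ^ (c j).natAbs ≤ (c j).natAbs := by
    have h3 := Int.natAbs_dvd_natAbs.2 h1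
    rw [Int.natAbs_pow, Int.natAbs_natCast] at h3
    exact Nat.le_of_dvd (Int.natAbs_pos.2 h) h3
  have h3 : (c j).natAbs < ℓ ^ (c j).natAbs := Nat.lt_pow_self (by omega)
  omega

/-- a sum of nonzero polynomials with distinct degrees is nonzero -/
theorem sum_ne_zero_of_degree {σ ι R : Type*} [CommRing R] (mo : MonomialOrder σ) (S : Finset ι)
    (hS : S.Nonempty) (T : ι → MvPolynomial σ R) (hT : ∀ i ∈ S, T i ≠ 0)
    (hinj : ∀ i ∈ S, ∀ j ∈ S, mo.degree (T i) = mo.degree (T j) → i = j) :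
    ∑ i ∈ S, T i ≠ 0 := by
  classical
  obtain ⟨i₀, hi₀, hmax⟩ := S.exists_max_image (fun i => mo.toSyn (mo.degree (T i))) hS
  intro h
  have h1 := congrArg (coeff (mo.degree (T i₀))) h
  rw [coeff_sum, Finset.sum_eq_single i₀, coeff_zero] at h1
  · exact mo.coeff_degree_ne_zero_iff.2 (hT i₀ hi₀) h1
  · intro i hi hne
    apply mo.coeff_eq_zero_of_lt
    refine lt_of_le_of_ne (hmax i hi) ?_
    intro h2
    exact hne (hinj i hi i₀ hi₀ (mo.toSyn.injective h2))
  · intro h2; exact absurd hi₀ h2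

/-- algebraic independence from leading exponents -/
theorem indep_of_kummer {k K : Type*} [Field k] [Field K] [Algebra k K] {m n : ℕ} {x : Fin n → K}
    (hx : AlgebraicIndependent k x) (e : Fin m → Fin n) (he : Function.Injective e) (ℓ : ℕ)
    (hℓ : 2 ≤ ℓ) (Q : Fin m → ℕ) (hQ : ∀ j, Nat.Coprime ℓ (Q j)) (g h : Fin m → K)
    (hg : ∀ j, g j ∈ IntermediateField.adjoin k (Set.range x))
    (hh : ∀ j, h j ∈ IntermediateField.adjoin k (Set.range x))
    (hg0 : ∀ j, g j ≠ 0) (hh0 : ∀ j, h j ≠ 0)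
    (heq : ∀ j, x (e j) ^ Q j = g j * h j ^ ℓ) : AlgebraicIndependent k g := by
  classical
  have hinj : Function.Injective (aeval x : MvPolynomial (Fin n) k →ₐ[k] K) :=
    algebraicIndependent_iff_injective_aeval.1 hx
  choose A B hAB using fun j => (IntermediateField.mem_adjoin_range_iff k x (g j)).1 (hg j)
  choose C D hCD using fun j => (IntermediateField.mem_adjoin_range_iff k x (h j)).1 (hh j)
  have hA0' : ∀ j, aeval x (A j) ≠ 0 := fun j hz => hg0 j (by rw [hAB, hz, zero_div])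
  have hB0' : ∀ j, aeval x (B j) ≠ 0 := fun j hz => hg0 j (by rw [hAB, hz, div_zero])
  have hC0' : ∀ j, aeval x (C j) ≠ 0 := fun j hz => hh0 j (by rw [hCD, hz, zero_div])
  have hD0' : ∀ j, aeval x (D j) ≠ 0 := fun j hz => hh0 j (by rw [hCD, hz, div_zero])
  have hA0 : ∀ j, A j ≠ 0 := fun j hz => hA0' j (by rw [hz, map_zero])
  have hB0 : ∀ j, B j ≠ 0 := fun j hz => hB0' j (by rw [hz, map_zero])
  have hC0 : ∀ j, C j ≠ 0 := fun j hz => hC0' j (by rw [hz, map_zero])
  have hD0 : ∀ j, D j ≠ 0 := fun j hz => hD0' j (by rw [hz, map_zero])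
  have hpoly : ∀ j, X (e j) ^ Q j * (B j * D j ^ ℓ) = A j * C j ^ ℓ := by
    intro j
    apply hinj
    have h1 := heq j
    have h2 := hB0' j
    have h3 := hD0' j
    rw [hAB, hCD, div_pow, div_mul_div_comm, eq_div_iff (mul_ne_zero h2 (pow_ne_zero _ h3))] at h1
    simpa using h1
  let mo : MonomialOrder (Fin n) := MonomialOrder.lex
  have hdeg : ∀ j, Q j • Finsupp.single (e j) 1 + (mo.degree (B j) + ℓ • mo.degree (D j)) =
      mo.degree (A j) + ℓ • mo.degree (C j) := by
    intro j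
    have h1 := congrArg mo.degree (hpoly j)
    rw [mo.degree_mul (pow_ne_zero _ (X_ne_zero _)) (mul_ne_zero (hB0 j) (pow_ne_zero _ (hD0 j))),
      mo.degree_mul (hB0 j) (pow_ne_zero _ (hD0 j)), mo.degree_mul (hA0 j) (pow_ne_zero _ (hC0 j)),
      mo.degree_pow, mo.degree_pow, mo.degree_pow, mo.degree_X] at h1
    exact h1
  let ν : Fin m → Fin n → ℤ := fun j i => (mo.degree (A j) i : ℤ) - (mo.degree (B j) i : ℤ)
  have hν : ∀ j i, ∃ r : ℤ, ν j i = (if e j = i then (Q j : ℤ) else 0) + ℓ * r := by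
    intro j i
    refine ⟨(mo.degree (D j) i : ℤ) - (mo.degree (C j) i : ℤ), ?_⟩
    have h1 := congrArg (fun f : Fin n →₀ ℕ => ((f i : ℕ) : ℤ)) (hdeg j)
    simp only [Finsupp.add_apply, Finsupp.smul_apply, Finsupp.single_apply, smul_eq_mul,
      Nat.cast_add, Nat.cast_mul, Nat.cast_ite, Nat.cast_zero, mul_ite, mul_one,
      mul_zero] at h1
    simp only [ν]
    linarith
  rw [algebraicIndependent_iff]
  intro P hP
  by_contra hP0
  -- clear denominators
  obtain ⟨N, hN⟩ : ∃ N : ℕ, ∀ α ∈ P.support, ∀ j, α j ≤ N := by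
    refine ⟨P.totalDegree, fun α hα j => ?_⟩
    have h1 := le_totalDegree hα
    refine le_trans ?_ h1
    rw [Finsupp.sum_fintype _ _ (fun _ => rfl)]
    exact Finset.single_le_sum (f := fun i => α i) (fun _ _ => Nat.zero_le _) (Finset.mem_univ j)
  let T : (Fin m →₀ ℕ) → MvPolynomial (Fin n) k := fun α =>
    MvPolynomial.C (coeff α P) * ∏ j, (A j ^ α j * B j ^ (N - α j))
  have hprod0 : ∀ (α : Fin m →₀ ℕ), ∀ j ∈ (Finset.univ : Finset (Fin m)),
      A j ^ α j * B j ^ (N - α j) ≠ 0 := fun α j _ =>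
    mul_ne_zero (pow_ne_zero _ (hA0 j)) (pow_ne_zero _ (hB0 j))
  have hT0 : ∀ α ∈ P.support, T α ≠ 0 := by
    intro α hα
    refine mul_ne_zero ?_ (Finset.prod_ne_zero_iff.2 (hprod0 α))
    rw [Ne, C_eq_zero]
    exact mem_support_iff.1 hα
  have hTdeg : ∀ α ∈ P.support, mo.degree (T α) =
      ∑ j, (α j • mo.degree (A j) + (N - α j) • mo.degree (B j)) := by
    intro α hα
    have h1 : (MvPolynomial.C (coeff α P) : MvPolynomial (Fin n) k) ≠ 0 := by
      rw [Ne, C_eq_zero]
      exact mem_support_iff.1 hα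
    rw [mo.degree_mul h1 (Finset.prod_ne_zero_iff.2 (hprod0 α)), mo.degree_C, zero_add,
      mo.degree_prod (hprod0 α)]
    apply Finset.sum_congr rfl
    intro j _
    rw [mo.degree_mul (pow_ne_zero _ (hA0 j)) (pow_ne_zero _ (hB0 j)), mo.degree_pow,
      mo.degree_pow]
  refine sum_ne_zero_of_degree mo P.support (by
    rw [Finset.nonempty_iff_ne_empty]; simpa using hP0) T hT0 ?_ ?_
  · intro α hα β hβ hab
    rw [hTdeg α hα, hTdeg β hβ] at hab
    have h1 := eq_zero_of_descent e he ℓ hℓ Q hQ ν hν (fun j => (α j : ℤ) - (β j : ℤ)) (by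
      intro i
      have h2 := congrArg (fun f : Fin n →₀ ℕ => ((f i : ℕ) : ℤ)) hab
      simp only [Finsupp.coe_finsetSum, Finset.sum_apply, Finsupp.add_apply, Finsupp.smul_apply,
        smul_eq_mul, Nat.cast_sum, Nat.cast_add, Nat.cast_mul] at h2
      have h3 : ∑ j, ((α j : ℤ) - (β j : ℤ)) * ν j i =
          ∑ j, ((α j : ℤ) * (mo.degree (A j) i : ℤ) + ((N - α j : ℕ) : ℤ) * (mo.degree (B j) i : ℤ))
          - ∑ j, ((β j : ℤ) * (mo.degree (A j) i : ℤ) +
            ((N - β j : ℕ) : ℤ) * (mo.degree (B j) i : ℤ)) := by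
        rw [← Finset.sum_sub_distrib]
        apply Finset.sum_congr rfl
        intro j _
        rw [Nat.cast_sub (hN α hα j), Nat.cast_sub (hN β hβ j)]
        simp only [ν]
        ring
      rw [h3, h2, sub_self])
    ext j
    have h2 := h1 j
    omega
  · apply hinj
    rw [map_zero, map_sum]
    have h1 : ∀ α ∈ P.support, aeval x (T α) =
        (algebraMap k K (coeff α P) * ∏ j, g j ^ α j) * ∏ j, (aeval x (B j)) ^ N := by
      intro α hα
      simp only [T]
      rw [map_mul, map_prod, aeval_C, mul_assoc, ← Finset.prod_mul_distrib]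
      congr 1
      apply Finset.prod_congr rfl
      intro j _
      rw [map_mul, map_pow, map_pow, hAB, div_pow]
      have h2 : (aeval x (B j)) ^ N = (aeval x (B j)) ^ (α j) * (aeval x (B j)) ^ (N - α j) := by
        rw [← pow_add, Nat.add_sub_cancel' (hN α hα j)]
      have h3 := hB0' j
      rw [h2]
      field_simp
    rw [Finset.sum_congr rfl h1, ← Finset.sum_mul]
    have h4 : ∑ α ∈ P.support, algebraMap k K (coeff α P) * ∏ j, g j ^ α j = aeval g P := by
      rw [aeval_def, eval₂_eq']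
    rw [h4, hP, zero_mul]

end ALG
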