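import Pool.Agent.H45.ALG.Key
import Pool.Agent.H45.ALG.Kum
import Pool.Agent.H45.ALG.Val
import Pool.Agent.H45.ALG.Grp
import Pool.Agent.H45.ALG.Defs

/-!
The action of `Aut(K/T)` on the roots of `f = t`; stability of the fields `[u]`.
-/

set_option linter.style.haveILetI false

namespace ALG

open Polynomial IntermediateField

variable {k K : Type*} [Field k] [Field K] [Algebra k K]
variable {m n : ℕ} {x : Fin n → K} {y : Fin m → K} (hmn : m ≤ n) {ℓ : ℕ}

theorem bracket_eq {r : ℕ} (t : Fin r → K) :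
    bracket (k := k) t = ac (adjoin k (Set.range t)) := rfl

theorem mem_bracket {r : ℕ} (t : Fin r → K) (i : Fin r) : t i ∈ bracket (k := k) t := by
  rw [bracket_eq]
  exact le_ac _ (subset_adjoin k _ ⟨i, rfl⟩)

theorem ac_stable {E : IntermediateField k K} {σ : Gal(K/k)} (hσ : σ ∈ E.fixingSubgroup) {z : K}
    (hz : z ∈ ac E) : σ z ∈ ac E := by
  rw [mem_ac] at hz ⊢
  obtain ⟨P, hP, hz⟩ := hz
  exact ⟨P, hP, by rw [aeval_fix E P z σ hσ, hz, map_zero]⟩

theorem bracket_stable {r : ℕ} {u : Fin r → K} {F : IntermediateField k K}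
    (hu : ∀ i, u i ∈ F) {σ : Gal(K/k)} (hσ : σ ∈ F.fixingSubgroup) {z : K}
    (hz : z ∈ bracket (k := k) u) : σ z ∈ bracket (k := k) u := by
  rw [bracket_eq] at hz ⊢
  refine ac_stable (fixingSubgroup_antitone ?_ hσ) hz
  rw [adjoin_le_iff]
  rintro _ ⟨i, rfl⟩
  exact hu i

/-- the stabiliser condition gives a normal subgroup -/
theorem normal_of_stable {T W : IntermediateField k K}
    (hW : ∀ σ ∈ T.fixingSubgroup, ∀ z ∈ W, σ z ∈ W) :
    (W.fixingSubgroup.subgroupOf T.fixingSubgroup).Normal := by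
  constructor
  intro τ hτ g
  rw [Subgroup.mem_subgroupOf] at hτ ⊢
  rw [mem_fs]
  intro z hz
  have h1 : (g⁻¹ : T.fixingSubgroup).1 z ∈ W := hW _ (g⁻¹).2 z hz
  have h2 : (τ : Gal(K/k)) ((g⁻¹ : T.fixingSubgroup).1 z) = (g⁻¹ : T.fixingSubgroup).1 z :=
    mem_fs.1 hτ _ h1
  change (g.1) ((τ : Gal(K/k)) ((g⁻¹ : T.fixingSubgroup).1 z)) = z
  rw [h2]
  change (g.1 * (g.1)⁻¹) z = z
  rw [mul_inv_cancel, AlgEquiv.one_apply]

theorem tt_mem_TT : tt y ∈ TT k x y ∨ ¬ m ≤ n := by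
  by_cases hmn : m ≤ n
  · left
    exact prod_mem (fun j _ => add_mem (one_mem _) (y_mem_TT hmn j))
  · exact Or.inr hmn

theorem tt_mem (hmn : m ≤ n) : tt y ∈ TT k x y :=
  prod_mem (fun j _ => add_mem (one_mem _) (y_mem_TT hmn j))

/-- the set of roots with its action -/
def RT (s : Finset k) (T : IntermediateField k K) (t : K) (ht : t ∈ T) :
    SubMulAction T.fixingSubgroup K where
  carrier := RR s t
  smul_mem' := fun σ _ hx => map_mem_RR s σ.1 (mem_fs.1 σ.2 t ht) hx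

/-- the homomorphism to permutations of the roots -/
def piT (s : Finset k) (T : IntermediateField k K) (t : K) (ht : t ∈ T) :
    T.fixingSubgroup →* Equiv.Perm (RT s T t ht) :=
  MulAction.toPermHom T.fixingSubgroup (RT s T t ht)

theorem piT_apply (s : Finset k) (T : IntermediateField k K) (t : K) (ht : t ∈ T)
    (σ : T.fixingSubgroup) (e : RT s T t ht) : ((piT s T t ht σ e : RT s T t ht) : K) = σ.1 e :=
  rfl

theorem mem_ker_piT (s : Finset k) (T : IntermediateField k K) (t : K) (ht : t ∈ T)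
    (σ : T.fixingSubgroup) : σ ∈ (piT s T t ht).ker ↔ ∀ e ∈ RR s t, σ.1 e = e := by
  rw [MonoidHom.mem_ker]
  constructor
  · intro h e he
    have h1 := congrArg (fun q : Equiv.Perm (RT s T t ht) => ((q ⟨e, he⟩ : RT s T t ht) : K)) h
    exact h1
  · intro h
    apply Equiv.ext
    intro e
    apply Subtype.ext
    exact h e.1 e.2

theorem TT_stable [IsAlgClosed k] (hℓ : 1 ≤ ℓ) (hy : ∀ j, y j ^ ℓ = x (Fin.castLE hmn j))
    {σ : Gal(K/k)} (hσ : σ ∈ (adjoin k (Set.range x)).fixingSubgroup) {z : K}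
    (hz : z ∈ TT k x y) : σ z ∈ TT k x y := by
  have h1 : TT k x y ≤ (TT k x y).comap (σ : K →ₐ[k] K) := by
    conv_lhs => rw [TT]
    rw [adjoin_le_iff]
    rintro _ ⟨i, rfl⟩
    change σ (zz x y i) ∈ TT k x y
    by_cases h : (i : ℕ) < m
    · have h2 : zz x y i = y ⟨i, h⟩ := by rw [zz, dif_pos h]
      rw [h2]
      obtain ⟨a, ha⟩ := exists_algebraMap_of_pow (k := k) (a := σ (y ⟨i, h⟩)) (b := y ⟨i, h⟩) ℓ hℓ
        (by
          rw [← map_pow, hy]
          exact mem_fs.1 hσ _ (subset_adjoin k _ ⟨_, rfl⟩))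
      rw [ha]
      exact mul_mem (IntermediateField.algebraMap_mem _ a) (y_mem_TT hmn _)
    · have h2 : zz x y i = x i := by rw [zz, dif_neg h]
      rw [h2, mem_fs.1 hσ _ (subset_adjoin k _ ⟨_, rfl⟩), ← h2]
      exact subset_adjoin k _ ⟨_, rfl⟩
  exact h1 hz

/-- no single `[u]` with few `u`'s kills the group -/
theorem no_local [IsAlgClosed k] [IsAlgClosed K] (hx : IsTranscendenceBasis k x) (p : ℕ)
    [ExpChar k p] (hℓ : 2 ≤ ℓ) (hℓp : ∀ a, Nat.Coprime ℓ (p ^ a))
    (hy : ∀ j, y j ^ ℓ = x (Fin.castLE hmn j)) (hm : 2 ≤ m) (s : Finset k) (h0 : (0 : k) ∉ s)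
    (hs : s.Nonempty) {r : ℕ} (hr : r < m) (u : Fin r → K)
    (hu : ∀ i, u i ∈ adjoin k (Set.range x))
    (hle : ((adjoin k (Set.range x) ⊔ bracket u).fixingSubgroup).subgroupOf
      (TT k x y).fixingSubgroup ≤ (piT s (TT k x y) (tt y) (tt_mem hmn)).ker) : False := by
  set F := adjoin k (Set.range x) with hF
  have hFT : F ≤ TT k x y := F_le_TT hmn hy
  have hAG : (TT k x y).fixingSubgroup ≤ F.fixingSubgroup := fixingSubgroup_antitone hFT
  have hfixy : ∀ σ ∈ F.fixingSubgroup, σ ∈ (bracket (k := k) u).fixingSubgroup →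
      ∀ j, σ (y j) = y j := by
    intro σ hσF hσu
    refine key_fix hmn hx (by omega) hy hm s h0 hs σ hσF ?_
    intro b hb hbR e' he'
    have hbF := hAG hb
    -- the commutator
    set c : Gal(K/k) := b⁻¹ * σ⁻¹ * b * σ with hc
    have hcA : c ∈ (TT k x y).fixingSubgroup := by
      have h1 : σ⁻¹ * b * σ ∈ (TT k x y).fixingSubgroup := by
        rw [mem_fs]
        intro z hz
        have h2 : b (σ z) = σ z := mem_fs.1 hb _ (TT_stable hmn (by omega) hy hσF hz)
        rw [AlgEquiv.mul_apply, AlgEquiv.mul_apply, h2, ← AlgEquiv.mul_apply, inv_mul_cancel,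
          AlgEquiv.one_apply]
      have h2 : c = b⁻¹ * (σ⁻¹ * b * σ) := by rw [hc]; group
      rw [h2]
      exact mul_mem (inv_mem hb) h1
    have hcu : c ∈ (F ⊔ bracket (k := k) u).fixingSubgroup := by
      rw [fixingSubgroup_sup, Subgroup.mem_inf]
      refine ⟨mul_mem (mul_mem (mul_mem (inv_mem hbF) (inv_mem hσF)) hbF) hσF, ?_⟩
      refine mul_mem ?_ hσu
      rw [mem_fs]
      intro z hz
      have h1 : b z ∈ bracket (k := k) u := bracket_stable hu hbF hz
      have h2 : σ⁻¹ (b z) = b z := mem_fs.1 (inv_mem hσu) _ h1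
      rw [AlgEquiv.mul_apply, AlgEquiv.mul_apply, h2, ← AlgEquiv.mul_apply, inv_mul_cancel,
        AlgEquiv.one_apply]
    have hker : (⟨c, hcA⟩ : (TT k x y).fixingSubgroup) ∈
        (piT s (TT k x y) (tt y) (tt_mem hmn)).ker := hle hcu
    rw [mem_ker_piT] at hker
    have he : σ⁻¹ e' ∈ RR s (tt y) := by
      change aeval (σ⁻¹ e') (ff s) = tt y
      rw [aeval_algHom_apply, show aeval e' (ff s) = σ (tt y) from he', ← AlgEquiv.mul_apply,
        inv_mul_cancel, AlgEquiv.one_apply]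
    have h3 := hker _ he
    have h4 : c (σ⁻¹ e') = b⁻¹ (σ⁻¹ (b e')) := by
      rw [hc, AlgEquiv.mul_apply, AlgEquiv.mul_apply, AlgEquiv.mul_apply, ← AlgEquiv.mul_apply σ,
        mul_inv_cancel, AlgEquiv.one_apply]
    change c (σ⁻¹ e') = σ⁻¹ e' at h3
    rw [h4] at h3
    have h5 := congrArg b h3
    rw [← AlgEquiv.mul_apply, mul_inv_cancel, AlgEquiv.one_apply, hbR _ he] at h5
    exact σ⁻¹.injective h5
  -- Kummer
  have hFac : ac F = ⊤ := ac_top_of_basis hx
  have hk := fun j => kummer p F (bracket (k := k) u) hFac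
    (fun σ hσ z hz => bracket_stable hu hσ hz) (y_ne_zero hmn hx (by omega) hy j)
    (ℓ := ℓ) (by omega) (by rw [hy]; exact subset_adjoin k _ ⟨_, rfl⟩)
    (fun σ hσF hσu => hfixy σ hσF hσu j)
  choose a g h hgF hgu hhF hg0 hh0 heq using hk
  have hind := indep_of_kummer hx.1 (Fin.castLE hmn) (Fin.castLE_injective hmn) ℓ hℓ
    (fun j => p ^ a j) (fun j => hℓp _) g h hgF hhF hg0 hh0 (fun j => by rw [← hy]; exact heq j)
  have h1 := card_le_of_indep hind u hgu
  rw [Nat.card_eq_fintype_card, Fintype.card_fin] at h1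
  omega

end ALG
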