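import Pool.Agent.H45.ALG.Act

/-!
The main theorem.
-/

set_option linter.style.haveILetI false

namespace ALG

open Polynomial IntermediateField

variable {k K : Type*} [Field k] [Field K] [Algebra k K]
variable {m n : ℕ} {x : Fin n → K} {y : Fin m → K} (hmn : m ≤ n) {ℓ : ℕ}

theorem bracket_le_M (r s : ℕ) (t : Fin r → K) (ht : ∀ i, t i ∈ M k x r (s + 1)) :
    bracket (k := k) t ≤ M k x r (s + 2) := by
  rw [M]
  exact le_iSup (fun t : {t : Fin r → K // ∀ i, t i ∈ M k x r (s + 1)} => bracket (k := k) t.1)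
    ⟨t, ht⟩

theorem F_le_M (r : ℕ) (hr : 1 ≤ r) : adjoin k (Set.range x) ≤ M k x r 2 := by
  rw [adjoin_le_iff]
  rintro _ ⟨i, rfl⟩
  apply bracket_le_M r 0 (fun _ : Fin r => x i)
  · intro _
    exact subset_adjoin k _ ⟨i, rfl⟩
  · exact mem_bracket (k := k) (fun _ : Fin r => x i) ⟨0, hr⟩

theorem root_mem_ac {E : IntermediateField k K} {z : K} {q : ℕ} (hq : 1 ≤ q) (h : z ^ q ∈ E) :
    z ∈ ac E := by
  rw [mem_ac]
  refine ⟨X ^ q - C (⟨z ^ q, h⟩ : E), X_pow_sub_C_ne_zero (by omega) _, ?_⟩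
  rw [map_sub, map_pow, aeval_X, aeval_C]
  exact sub_self _

theorem y_mem_M (r : ℕ) (hr : 1 ≤ r) (hℓ : 1 ≤ ℓ) (hy : ∀ j, y j ^ ℓ = x (Fin.castLE hmn j))
    (j : Fin m) : y j ∈ M k x r 2 := by
  apply bracket_le_M r 0 (fun _ : Fin r => x (Fin.castLE hmn j))
  · intro _
    exact subset_adjoin k _ ⟨_, rfl⟩
  · rw [bracket_eq]
    apply root_mem_ac hℓ
    rw [hy]
    exact subset_adjoin k _ ⟨⟨0, hr⟩, rfl⟩

theorem TT_le_M (r : ℕ) (hr : 1 ≤ r) (hℓ : 1 ≤ ℓ) (hy : ∀ j, y j ^ ℓ = x (Fin.castLE hmn j)) :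
    TT k x y ≤ M k x r 2 := by
  rw [TT, adjoin_le_iff]
  rintro _ ⟨i, rfl⟩
  by_cases h : (i : ℕ) < m
  · have h2 : zz x y i = y ⟨i, h⟩ := by rw [zz, dif_pos h]
    rw [h2]
    exact y_mem_M hmn r hr hℓ hy _
  · have h2 : zz x y i = x i := by rw [zz, dif_neg h]
    rw [h2]
    exact F_le_M r hr (subset_adjoin k _ ⟨i, rfl⟩)

theorem M_stable (r : ℕ) {σ : Gal(K/k)} (hσ : σ ∈ (adjoin k (Set.range x)).fixingSubgroup) {z : K}
    (hz : z ∈ M k x r 2) : σ z ∈ M k x r 2 := by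
  have h1 : M k x r 2 ≤ (M k x r 2).comap (σ : K →ₐ[k] K) := by
    conv_lhs => rw [M]
    apply iSup_le
    rintro ⟨t, ht⟩ w hw
    change σ w ∈ M k x r 2
    exact bracket_le_M r 0 t ht (bracket_stable ht hσ hw)
  exact h1 hz

theorem fs_iSup_aux {ι : Type*} (S : Finset ι) (W : ι → IntermediateField k K) {σ : Gal(K/k)}
    (hσ : ∀ i ∈ S, σ ∈ (W i).fixingSubgroup) : σ ∈ (⨆ i ∈ S, W i).fixingSubgroup := by
  have h : (⨆ i ∈ S, W i) ≤ fixedField (Subgroup.zpowers σ) := by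
    apply iSup₂_le
    intro i hi
    rw [IntermediateField.le_iff_le, Subgroup.zpowers_le]
    exact hσ i hi
  rw [IntermediateField.le_iff_le, Subgroup.zpowers_le] at h
  exact h

/-- the group over `M_r^2` acts nontrivially -/
theorem not_le_ker [IsAlgClosed k] [IsAlgClosed K] (hx : IsTranscendenceBasis k x) (p : ℕ)
    [ExpChar k p] (hℓ : 2 ≤ ℓ) (hℓp : ∀ a, Nat.Coprime ℓ (p ^ a))
    (hy : ∀ j, y j ^ ℓ = x (Fin.castLE hmn j)) {r : ℕ} (hr1 : 1 ≤ r) (hr : r < m) (s : Finset k)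
    (h0 : (0 : k) ∉ s) (hs : s.Nonempty) (h5 : 5 ≤ Nat.card (RT s (TT k x y) (tt y) (tt_mem hmn)))
    [Fintype (RT s (TT k x y) (tt y) (tt_mem hmn))]
    [DecidableEq (RT s (TT k x y) (tt y) (tt_mem hmn))]
    (hπ : Function.Surjective (piT s (TT k x y) (tt y) (tt_mem hmn))) :
    ¬ ((M k x r 2).fixingSubgroup.subgroupOf (TT k x y).fixingSubgroup ≤
      (piT s (TT k x y) (tt y) (tt_mem hmn)).ker) := by
  classical
  intro hle
  set F := adjoin k (Set.range x) with hF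
  set T := TT k x y with hT
  have hFT : F ≤ T := F_le_TT hmn hy
  have hAG : T.fixingSubgroup ≤ F.fixingSubgroup := fixingSubgroup_antitone hFT
  have hTM : T ≤ M k x r 2 := TT_le_M hmn r hr1 (by omega) hy
  haveI : Algebra.IsAlgebraic (M k x r 2) K :=
    ⟨fun z => mem_ac.1 (ac_mono hTM ((ac_TT hmn hx hy) ▸ mem_top : z ∈ ac T))⟩
  obtain ⟨e₀⟩ : Nonempty (RT s T (tt y) (tt_mem hmn)) :=
    Finite.card_pos_iff.1 (lt_of_lt_of_le (by norm_num) h5)
  obtain ⟨a, ha⟩ := pow_mem_of_fixed p (M k x r 2) (z := (e₀ : K)) (by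
    intro σ hσ
    have h1 : σ ∈ T.fixingSubgroup := fixingSubgroup_antitone hTM hσ
    have h2 : (⟨σ, h1⟩ : T.fixingSubgroup) ∈ (piT s T (tt y) (tt_mem hmn)).ker := hle hσ
    rw [mem_ker_piT] at h2
    exact h2 _ e₀.2)
  rw [M] at ha
  obtain ⟨S, hS⟩ := exists_finset_of_mem_iSup ha
  -- the subgroups attached to single tuples
  let H : {t : Fin r → K // ∀ i, t i ∈ M k x r (0 + 1)} → Subgroup T.fixingSubgroup := fun t =>
    ((F ⊔ bracket t.1).fixingSubgroup).subgroupOf T.fixingSubgroup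
  have hHn : ∀ t ∈ S, (H t).Normal := by
    intro t _
    apply normal_of_stable
    intro σ hσ z hz
    have h1 : F ⊔ bracket t.1 ≤ (F ⊔ bracket t.1).comap (σ : K →ₐ[k] K) := by
      apply sup_le
      · intro w hw
        change σ w ∈ F ⊔ bracket t.1
        rw [mem_fs.1 (hAG hσ) w hw]
        exact (le_sup_left : F ≤ F ⊔ bracket t.1) hw
      · intro w hw
        change σ w ∈ F ⊔ bracket t.1
        exact (le_sup_right : bracket t.1 ≤ F ⊔ bracket t.1) (bracket_stable t.2 (hAG hσ) hw)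
    exact h1 hz
  have hfixe₀ : ∀ σ ∈ (⨅ t ∈ S, H t), (σ : Gal(K/k)) e₀ = e₀ := by
    intro σ hσ
    have h1 : (σ : Gal(K/k)) ∈ (⨆ i ∈ S, bracket (k := k) i.1).fixingSubgroup := by
      apply fs_iSup_aux
      intro i hi
      simp only [Subgroup.mem_iInf] at hσ
      have h2 := hσ i hi
      rw [Subgroup.mem_subgroupOf, fixingSubgroup_sup, Subgroup.mem_inf] at h2
      exact h2.2
    have h2 := mem_fs.1 h1 _ hS
    rw [map_pow] at h2
    haveI : ExpChar K p := expChar_of_injective_algebraMap (algebraMap k K).injective p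
    exact iterateFrobenius_inj K p a h2
  have hker : (⨅ t ∈ S, H t) ≤ (piT s T (tt y) (tt_mem hmn)).ker := by
    have hnorm : (⨅ t ∈ S, H t).Normal := by
      exact (alt_le_map_inf (piT s T (tt y) (tt_mem hmn)) h5 S H hHn
        (by rw [← MonoidHom.range_eq_map, MonoidHom.range_eq_top.2 hπ]; exact le_top)
        (fun i hi => by
          haveI := hHn i hi
          apply alt_le_map_of_normal _ hπ h5
          intro hle'
          exact no_local hmn hx p hℓ hℓp hy (by omega) s h0 hs hr i.1 i.2 hle')).2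
    intro σ hσ
    rw [mem_ker_piT]
    intro e he
    obtain ⟨τ, hτ⟩ := hπ (Equiv.swap e₀ ⟨e, he⟩)
    have h1 : (τ : Gal(K/k)) e₀ = e := by
      have := piT_apply s T (tt y) (tt_mem hmn) τ e₀
      rw [hτ, Equiv.swap_apply_left] at this
      exact this.symm
    have h2 : τ⁻¹ * σ * τ ∈ (⨅ t ∈ S, H t) := by
      have := hnorm.conj_mem σ hσ τ⁻¹
      simpa using this
    have h3 := hfixe₀ _ h2
    change (τ : Gal(K/k))⁻¹ ((σ : Gal(K/k)) ((τ : Gal(K/k)) e₀)) = e₀ at h3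
    rw [h1] at h3
    have h4 := congrArg (τ : Gal(K/k)) h3
    rw [← AlgEquiv.mul_apply, mul_inv_cancel, AlgEquiv.one_apply, h1] at h4
    exact h4
  obtain ⟨i, hi, hle'⟩ := exists_le_ker_of_inf _ hπ h5 S H hHn hker
  exact no_local hmn hx p hℓ hℓp hy (by omega) s h0 hs hr i.1 i.2 hle'

end ALG
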