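import Mathlib

/-!
Automorphisms of an algebraically closed field over an intermediate field.
-/

set_option linter.style.haveILetI false

namespace ALG

open IntermediateField Polynomial

variable {k K : Type*} [Field k] [Field K] [Algebra k K]

theorem mem_fs {E : IntermediateField k K} {σ : Gal(K/k)} :
    σ ∈ E.fixingSubgroup ↔ ∀ x ∈ E, σ x = x := IntermediateField.mem_fixingSubgroup_iff E σ

theorem mem_fs_adjoin {S : Set K} {σ : Gal(K/k)} :
    σ ∈ (adjoin k S).fixingSubgroup ↔ ∀ x ∈ S, σ x = x := by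
  rw [mem_fs]
  exact forall_mem_adjoin_smul_eq_self_iff k σ

theorem exists_fix_of_conj [IsAlgClosed K] (E : IntermediateField k K)
    [Algebra.IsAlgebraic E K] {z z' : K}
    (h : IsConjRoot E z z') : ∃ σ ∈ E.fixingSubgroup, σ z = z' := by
  haveI : IsAlgClosure E K := ⟨inferInstance, inferInstance⟩
  haveI : Normal E K := IsAlgClosure.normal E K
  obtain ⟨σ, hσ⟩ := h.symm.exists_algEquiv
  refine ⟨σ.restrictScalars k, ?_, hσ⟩
  rw [mem_fs]
  intro x hx
  exact σ.commutes ⟨x, hx⟩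

/-- an element fixed by all automorphisms over `E` has a `p`-power in `E` -/
theorem pow_mem_of_fixed [IsAlgClosed K] (p : ℕ) [ExpChar k p] (E : IntermediateField k K)
    [Algebra.IsAlgebraic E K] {z : K} (h : ∀ σ ∈ E.fixingSubgroup, σ z = z) :
    ∃ a : ℕ, z ^ p ^ a ∈ E := by
  classical
  haveI : ExpChar E p := expChar_of_injective_algebraMap (algebraMap k E).injective p
  have hz : IsIntegral E z := (Algebra.IsAlgebraic.isAlgebraic (R := E) z).isIntegral
  have h1 : (minpoly E z).natSepDegree = 1 := by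
    rw [natSepDegree_eq_of_isAlgClosed K]
    have h2 : ((minpoly E z).aroots K).toFinset = {z} := by
      ext w
      rw [Multiset.mem_toFinset, Finset.mem_singleton, ← isConjRoot_iff_mem_minpoly_aroots hz]
      constructor
      · intro hw
        obtain ⟨σ, hσ, hσz⟩ := exists_fix_of_conj E hw
        rw [← hσz, h σ hσ]
      · rintro rfl; exact IsConjRoot.refl
    rw [h2, Finset.card_singleton]
  rw [minpoly.natSepDegree_eq_one_iff_pow_mem p] at h1
  obtain ⟨a, w, hw⟩ := h1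
  refine ⟨a, ?_⟩
  rw [← hw]
  exact w.2

theorem aeval_fix (L : IntermediateField k K) (P : L[X]) (z : K) (σ : Gal(K/k))
    (hσ : σ ∈ L.fixingSubgroup) : aeval (σ z) P = σ (aeval z P) := by
  rw [aeval_def, aeval_def, eval₂_eq_sum_range, eval₂_eq_sum_range, map_sum]
  apply Finset.sum_congr rfl
  intro i hi
  rw [map_mul, map_pow]
  congr 1
  exact (mem_fs.1 hσ _ (P.coeff i).2).symm

/-- index of the stabiliser of an element of bounded degree -/
theorem relIndex_le_of_root (L : IntermediateField k K) (z : K) (P : L[X]) (hP : P ≠ 0)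
    (hz : aeval z P = 0) :
    (L ⊔ k⟮z⟯).fixingSubgroup.relIndex L.fixingSubgroup ≠ 0 ∧
    (L ⊔ k⟮z⟯).fixingSubgroup.relIndex L.fixingSubgroup ≤ P.natDegree := by
  classical
  have h1 : (L ⊔ k⟮z⟯).fixingSubgroup.subgroupOf L.fixingSubgroup =
      MulAction.stabilizer L.fixingSubgroup z := by
    ext σ
    rw [Subgroup.mem_subgroupOf, fixingSubgroup_sup, Subgroup.mem_inf, MulAction.mem_stabilizer_iff]
    constructor
    · rintro ⟨-, h2⟩
      exact mem_fs_adjoin.1 h2 z rfl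
    · intro h2
      refine ⟨σ.2, mem_fs_adjoin.2 ?_⟩
      rintro w rfl
      exact h2
  have h3 : (MulAction.orbit L.fixingSubgroup z) ⊆ (P.rootSet K : Set K) := by
    rintro w ⟨σ, rfl⟩
    rw [mem_rootSet]
    refine ⟨hP, ?_⟩
    change aeval ((σ : Gal(K/k)) z) P = 0
    rw [aeval_fix L P z _ σ.2, hz, map_zero]
  have hfin : (P.rootSet K).Finite := rootSet_finite P K
  have h5 : (MulAction.orbit L.fixingSubgroup z).Finite := hfin.subset h3
  rw [Subgroup.relIndex, h1, MulAction.index_stabilizer]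
  constructor
  · exact Set.ncard_ne_zero_of_mem (MulAction.mem_orbit_self z) h5
  · exact (Set.ncard_le_ncard h3 hfin).trans (ncard_rootSet_le P K)

/-- a root of unity of `K` lies in the algebraically closed field `k` -/
theorem exists_algebraMap_of_pow [IsAlgClosed k] {a b : K} (q : ℕ) (hq : 1 ≤ q)
    (h : a ^ q = b ^ q) : ∃ c : k, a = algebraMap k K c * b := by
  by_cases hb : b = 0
  · subst hb
    rw [zero_pow (by omega)] at h
    exact ⟨0, by rw [pow_eq_zero_iff (by omega)] at h; simp [h]⟩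
  · have h1 : (a / b) ^ q = 1 := by rw [div_pow, h, div_self (pow_ne_zero _ hb)]
    have h2 : IsAlgebraic k (a / b) := by
      refine ⟨X ^ q - C 1, X_pow_sub_C_ne_zero (by omega) 1, ?_⟩
      simp [h1]
    haveI : Algebra.IsAlgebraic k k⟮a / b⟯ := isAlgebraic_adjoin_simple h2.isIntegral
    have h3 := IntermediateField.eq_bot_of_isAlgClosed_of_isAlgebraic k⟮a / b⟯
    have h4 : a / b ∈ (⊥ : IntermediateField k K) := h3 ▸ mem_adjoin_simple_self k (a / b)
    obtain ⟨c, hc⟩ := mem_bot.1 h4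
    exact ⟨c, by rw [hc, div_mul_cancel₀ _ hb]⟩

/-- radical step -/
theorem comm_mem_of_radical [IsAlgClosed k] (L : IntermediateField k K) (z : K) (q : ℕ)
    (hq : 1 ≤ q) (hz : z ^ q ∈ L) (σ τ : Gal(K/k)) (hσ : σ ∈ L.fixingSubgroup)
    (hτ : τ ∈ L.fixingSubgroup) : σ * τ * σ⁻¹ * τ⁻¹ ∈ (L ⊔ k⟮z⟯).fixingSubgroup := by
  rw [fixingSubgroup_sup, Subgroup.mem_inf]
  refine ⟨mul_mem (mul_mem (mul_mem hσ hτ) (inv_mem hσ)) (inv_mem hτ), mem_fs_adjoin.2 ?_⟩
  rintro w rfl
  have key : ∀ σ τ : Gal(K/k), σ ∈ L.fixingSubgroup → τ ∈ L.fixingSubgroup →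
      σ (τ w) = τ (σ w) := by
    intro σ τ hσ hτ
    obtain ⟨a, ha⟩ := exists_algebraMap_of_pow (k := k) (a := σ w) (b := w) q hq (by
      rw [← map_pow, mem_fs.1 hσ _ hz])
    obtain ⟨b, hb⟩ := exists_algebraMap_of_pow (k := k) (a := τ w) (b := w) q hq (by
      rw [← map_pow, mem_fs.1 hτ _ hz])
    rw [ha, hb, map_mul, map_mul, AlgEquiv.commutes, AlgEquiv.commutes, ha, hb]; ring
  have h2 : (σ⁻¹ * τ⁻¹) w = (τ⁻¹ * σ⁻¹) w := key σ⁻¹ τ⁻¹ (inv_mem hσ) (inv_mem hτ)
  have h3 : (σ * τ * σ⁻¹ * τ⁻¹) w = (σ * τ) ((σ⁻¹ * τ⁻¹) w) := by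
    rw [← AlgEquiv.mul_apply]; congr 1
  rw [h3, h2, ← AlgEquiv.mul_apply]
  have h5 : σ * τ * (τ⁻¹ * σ⁻¹) = 1 := by group
  rw [h5, AlgEquiv.one_apply]

end ALG
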