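import Pool.Agent.H45.ALG.Main

/-!
Towers, and the final assembly.
-/

set_option linter.style.haveILetI false

namespace ALG

open Polynomial IntermediateField

variable {k K : Type*} [Field k] [Field K] [Algebra k K]

/-- every tower of radicals and roots of low degree keeps the alternating group -/
theorem tower_keeps [IsAlgClosed k] (s : Finset k) (T : IntermediateField k K) (t : K) (ht : t ∈ T)
    (d : ℕ) (L₀ : IntermediateField k K) (hTL : T ≤ L₀) [Fintype (RT s T t ht)]
    [DecidableEq (RT s T t ht)] (h5 : 5 ≤ Nat.card (RT s T t ht))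
    (hd : d < Nat.card (RT s T t ht))
    (h : alternatingGroup (RT s T t ht) ≤
      (L₀.fixingSubgroup.subgroupOf T.fixingSubgroup).map (piT s T t ht))
    {L : IntermediateField k K} (hL : Tower d L₀ L) :
    T ≤ L ∧ alternatingGroup (RT s T t ht) ≤
      (L.fixingSubgroup.subgroupOf T.fixingSubgroup).map (piT s T t ht) := by
  induction hL with
  | base => exact ⟨hTL, h⟩
  | @radical L z q _ hq hz ih =>
    refine ⟨ih.1.trans le_sup_left, ?_⟩
    apply alt_le_map_of_comm _ h5 _ _ _ ih.2 ih.2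
    rw [Subgroup.commutator_le]
    intro σ hσ τ hτ
    exact comm_mem_of_radical L z q hq hz σ τ hσ hτ
  | @degree L z P _ hP hPd hz ih =>
    refine ⟨ih.1.trans le_sup_left, ?_⟩
    have h1 := relIndex_le_of_root L z P hP hz
    have h2 : L.fixingSubgroup ≤ T.fixingSubgroup := fixingSubgroup_antitone ih.1
    apply alt_le_map_of_index _ h5 _ _ ih.2
    · rw [Subgroup.relIndex_subgroupOf h2]
      exact h1.1
    · rw [Subgroup.relIndex_subgroupOf h2]
      omega

/-- the alternating group moves a root -/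
theorem notMem_of_alt (s : Finset k) (T : IntermediateField k K) (t : K) (ht : t ∈ T)
    [Fintype (RT s T t ht)] [DecidableEq (RT s T t ht)] (h5 : 5 ≤ Nat.card (RT s T t ht))
    {L : IntermediateField k K} (h : alternatingGroup (RT s T t ht) ≤
      (L.fixingSubgroup.subgroupOf T.fixingSubgroup).map (piT s T t ht))
    (e : RT s T t ht) : (e : K) ∉ L := by
  intro he
  have h3 : 2 < Fintype.card (RT s T t ht) := by rw [← Nat.card_eq_fintype_card]; omega
  obtain ⟨b, hb⟩ : ∃ b, b ≠ e := by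
    haveI : Nontrivial (RT s T t ht) := Fintype.one_lt_card_iff_nontrivial.1 (by omega)
    exact exists_ne e
  obtain ⟨c, hce, hcb⟩ : ∃ c, c ≠ e ∧ c ≠ b := by
    have h4 : ((Finset.univ.erase e).erase b).Nonempty := by
      rw [← Finset.card_pos, Finset.card_erase_of_mem (Finset.mem_erase.2 ⟨hb, Finset.mem_univ b⟩),
        Finset.card_erase_of_mem (Finset.mem_univ e), Finset.card_univ]
      omega
    obtain ⟨c, hc⟩ := h4
    rw [Finset.mem_erase, Finset.mem_erase] at hc
    exact ⟨c, hc.2.1, hc.1⟩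
  have hg : Equiv.swap e b * Equiv.swap e c ∈ alternatingGroup (RT s T t ht) := by
    rw [Equiv.Perm.mem_alternatingGroup, Equiv.Perm.sign_mul, Equiv.Perm.sign_swap hb.symm,
      Equiv.Perm.sign_swap hce.symm]
    rfl
  obtain ⟨σ, hσ, hσg⟩ := h hg
  have h1 : (σ : Gal(K/k)) e = e := mem_fs.1 hσ _ he
  have h2 := piT_apply s T t ht σ e
  rw [hσg, Equiv.Perm.mul_apply, Equiv.swap_apply_left, Equiv.swap_apply_of_ne_of_ne hce hcb] at h2
  exact hce (Subtype.ext (h2.trans h1))

theorem main [IsAlgClosed k] [IsAlgClosed K] {n : ℕ} (x : Fin n → K)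
    (hx : IsTranscendenceBasis k x) (r m d : ℕ) (hr1 : 1 ≤ r) (hr : r < m) (hmn : m ≤ n) :
    ∃ e : K, e ∈ M k x 1 3 ∧ e ∈ M k x m 2 ∧
      ∀ L : IntermediateField k K, Tower d (M k x r 2) L → e ∉ L := by
  classical
  obtain ⟨p, hp⟩ := ExpChar.exists k
  -- the prime `ℓ`
  obtain ⟨ℓ, hℓ, hℓp⟩ : ∃ ℓ : ℕ, 2 ≤ ℓ ∧ ∀ a, Nat.Coprime ℓ (p ^ a) := by
    by_cases h2 : p = 2
    · exact ⟨3, by norm_num, fun a => Nat.Coprime.pow_right a (by rw [h2]; norm_num)⟩
    · refine ⟨2, le_rfl, fun a => Nat.Coprime.pow_right a ?_⟩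
      rcases hp with _ | hp'
      · norm_num
      · rw [Nat.coprime_primes Nat.prime_two hp']
        exact fun h => h2 h.symm
  -- the degree `N`
  obtain ⟨N, hN1, hN2⟩ := Nat.exists_infinite_primes (max d 5 + 1)
  have hNd : d < N := by have := le_max_left d 5; omega
  have hN5 : 5 < N := by have := le_max_right d 5; omega
  obtain ⟨s, hs0, hsc⟩ : ∃ s : Finset k, (0 : k) ∉ s ∧ s.card = N - 2 := by
    have h1 : ({0}ᶜ : Set k).Infinite := (Set.finite_singleton (0 : k)).infinite_compl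
    obtain ⟨s, hs1, hs2⟩ := h1.exists_subset_card_eq (N - 2)
    exact ⟨s, fun h => hs1 h rfl, hs2⟩
  have hs : s.Nonempty := by rw [← Finset.card_pos, hsc]; omega
  have hsN : s.card + 2 = N := by omega
  -- the elements `y_j`
  have hyex : ∀ j : Fin m, ∃ y : K, y ^ ℓ = x (Fin.castLE hmn j) := fun j =>
    IsAlgClosed.exists_pow_nat_eq _ (by omega)
  choose y hy using hyex
  set T := TT k x y with hT
  set t := tt y with ht
  have htT : t ∈ T := tt_mem hmn
  let p₀ : Fin m := ⟨0, by omega⟩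
  have htr := tt_notMem hmn hx hy p₀
  have hac := ac_KP_sup hmn hx hy p₀
  have hcard : Nat.card (RT s T t htT) = N := by
    rw [← hsN, ← sym_card _ htr s hs0 hs]
    rfl
  haveI : Finite (RT s T t htT) := RR_finite s t
  haveI : Fintype (RT s T t htT) := Fintype.ofFinite _
  have h5 : 5 ≤ Nat.card (RT s T t htT) := by rw [hcard]; omega
  have hπ : Function.Surjective (piT s T t htT) := by
    intro g
    obtain ⟨σ, hσ, hσt, hσg⟩ := sym_full _ htr hac s hs0 (by rw [hsN]; exact hN2) hs g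
    have hσT : σ ∈ T.fixingSubgroup := by
      apply fixingSubgroup_antitone (TT_le_KP hmn hx hy p₀)
      rw [fixingSubgroup_sup, Subgroup.mem_inf]
      exact ⟨hσ, mem_fs_adjoin.2 (by rintro _ rfl; exact hσt)⟩
    refine ⟨⟨σ, hσT⟩, Equiv.ext (fun e => Subtype.ext ?_)⟩
    exact hσg e
  have hnk := not_le_ker hmn hx p hℓ hℓp hy hr1 hr s hs0 hs h5 hπ
  have hAG : T.fixingSubgroup ≤ (adjoin k (Set.range x)).fixingSubgroup :=
    fixingSubgroup_antitone (F_le_TT hmn hy)
  haveI : ((M k x r 2).fixingSubgroup.subgroupOf T.fixingSubgroup).Normal :=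
    normal_of_stable (fun σ hσ z hz => M_stable r (hAG hσ) hz)
  have halt := alt_le_map_of_normal _ hπ h5 _ hnk
  obtain ⟨e⟩ : Nonempty (RT s T t htT) := Finite.card_pos_iff.1 (lt_of_lt_of_le (by norm_num) h5)
  refine ⟨e, ?_, ?_, ?_⟩
  · -- `e ∈ M_1^3`
    have ht2 : t ∈ M k x 1 2 := prod_mem (fun j _ => add_mem (one_mem _)
      (y_mem_M hmn 1 le_rfl (by omega) hy j))
    apply bracket_le_M 1 1 (fun _ : Fin 1 => t) (fun _ => ht2)
    rw [bracket_eq]
    exact RR_mem_ac (subset_adjoin k _ ⟨0, rfl⟩) e.2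
  · -- `e ∈ M_m^2`
    apply bracket_le_M m 0 (fun j => x (Fin.castLE hmn j))
      (fun j => subset_adjoin k _ ⟨_, rfl⟩)
    rw [bracket_eq]
    have hyac : ∀ j, y j ∈ ac (adjoin k (Set.range (fun j => x (Fin.castLE hmn j)))) := by
      intro j
      apply root_mem_ac (by omega : 1 ≤ ℓ)
      rw [hy]
      exact subset_adjoin k _ ⟨j, rfl⟩
    have ht2 : t ∈ ac (adjoin k (Set.range (fun j => x (Fin.castLE hmn j)))) :=
      prod_mem (fun j _ => add_mem (one_mem _) (hyac j))
    have h1 := RR_mem_ac ht2 e.2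
    rwa [ac_ac] at h1
  · intro L hL
    have h1 := tower_keeps s T t htT d _ (TT_le_M hmn r hr1 (by omega) hy) h5
      (by rw [hcard]; exact hNd) halt hL
    exact notMem_of_alt s T t htT h5 h1.2 e

end ALG
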