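import Pool.Agent.H45.ALG.Full
import Pool.Agent.H45.ALG.Ac

/-!
The symmetric group lemma over an intermediate field.
-/

set_option linter.style.haveILetI false

namespace ALG

open Polynomial IntermediateField

variable {k K : Type*} [Field k] [Field K] [Algebra k K]

/-- transfer of algebraicity -/
theorem isAlgebraic_of_le {E : IntermediateField k K} {E₀ : IntermediateField k K} {t : K}
    (hE : E ≤ E₀ ⊔ k⟮t⟯) {z : K} (hz : IsAlgebraic E z) : IsAlgebraic E₀⟮t⟯ z := by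
  have h1 : E ≤ E₀⟮t⟯.restrictScalars k := by
    refine hE.trans (sup_le ?_ ?_)
    · intro x hx
      rw [mem_restrictScalars]
      exact _root_.algebraMap_mem E₀⟮t⟯ (⟨x, hx⟩ : E₀)
    · rw [adjoin_simple_le_iff, mem_restrictScalars]
      exact mem_adjoin_simple_self E₀ t
  exact IsAlgebraic.tower_top_of_subalgebra_le (A := E.toSubalgebra)
    (B := (E₀⟮t⟯.restrictScalars k).toSubalgebra) h1 hz

/-- base change of the set of roots -/
def bc (E₀ : IntermediateField k K) (s : Finset k) : Finset E₀ :=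
  s.map ⟨algebraMap k E₀, (algebraMap k E₀).injective⟩

theorem bc_card (E₀ : IntermediateField k K) (s : Finset k) : (bc E₀ s).card = s.card :=
  Finset.card_map _

theorem zero_notMem_bc (E₀ : IntermediateField k K) (s : Finset k) (h0 : (0 : k) ∉ s) :
    (0 : E₀) ∉ bc E₀ s := by
  intro h
  rw [bc, Finset.mem_map] at h
  obtain ⟨a, ha, h⟩ := h
  have h1 : algebraMap k E₀ a = 0 := h
  rw [map_eq_zero] at h1
  exact h0 (h1 ▸ ha)

theorem ff_bc (E₀ : IntermediateField k K) (s : Finset k) :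
    (ff s).map (algebraMap k E₀) = ff (bc E₀ s) := by
  rw [ff, ff, bc, Finset.prod_map, Polynomial.map_mul, Polynomial.map_pow, map_X,
    Polynomial.map_prod]
  congr 1
  apply Finset.prod_congr rfl
  intro a _
  rw [Polynomial.map_sub, map_X, map_C]
  rfl

theorem RR_bc (E₀ : IntermediateField k K) (s : Finset k) (t : K) :
    RR (bc E₀ s) t = RR s t := by
  ext x
  change aeval x (ff (bc E₀ s)) = t ↔ aeval x (ff s) = t
  rw [← ff_bc, aeval_map_algebraMap]

theorem tr_of_notMem {E₀ : IntermediateField k K} {t : K} (ht : t ∉ ac E₀) :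
    Transcendental E₀ t := fun h => ht (mem_ac.2 h)

theorem alg_of_ac {E₀ : IntermediateField k K} {t : K} (h : ac (E₀ ⊔ k⟮t⟯) = ⊤) :
    Algebra.IsAlgebraic E₀⟮t⟯ K :=
  ⟨fun z => isAlgebraic_of_le le_rfl (mem_ac.1 (h ▸ mem_top : z ∈ ac (E₀ ⊔ k⟮t⟯)))⟩

theorem restrict_mem_fs {E₀ : IntermediateField k K} (σ : Gal(K/E₀)) :
    σ.restrictScalars k ∈ E₀.fixingSubgroup :=
  mem_fs.2 (fun x hx => σ.commutes ⟨x, hx⟩)

variable [IsAlgClosed K]

theorem sym_trans (E₀ : IntermediateField k K) {t : K} (ht : t ∉ ac E₀)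
    (halg : ac (E₀ ⊔ k⟮t⟯) = ⊤) (s : Finset k) {x y : K} (hx : x ∈ RR s t) (hy : y ∈ RR s t) :
    ∃ σ ∈ E₀.fixingSubgroup, σ t = t ∧ σ x = y := by
  haveI := alg_of_ac halg
  rw [← RR_bc E₀] at hx hy
  obtain ⟨σ, h1, h2⟩ := exists_map_root (bc E₀ s) (tr_of_notMem ht) hx hy
  exact ⟨σ.restrictScalars k, restrict_mem_fs σ, h1, h2⟩

theorem sym_card (E₀ : IntermediateField k K) {t : K} (ht : t ∉ ac E₀)
    (s : Finset k) (h0 : (0 : k) ∉ s) (hs : s.Nonempty) :
    (RR s t).ncard = s.card + 2 := by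
  rw [← RR_bc E₀, RR_ncard _ (zero_notMem_bc E₀ s h0) (by simpa [bc] using hs) (tr_of_notMem ht),
    bc_card]

theorem sym_full (E₀ : IntermediateField k K) {t : K} (ht : t ∉ ac E₀)
    (halg : ac (E₀ ⊔ k⟮t⟯) = ⊤) (s : Finset k) (h0 : (0 : k) ∉ s) (hs : (s.card + 2).Prime)
    (hs' : s.Nonempty) (g : Equiv.Perm (RR s t)) :
    ∃ σ ∈ E₀.fixingSubgroup, σ t = t ∧ ∀ x : RR s t, σ x = g x := by
  haveI := alg_of_ac halg
  revert g
  rw [← RR_bc E₀]
  intro g
  obtain ⟨σ, h1, h2⟩ := full_sym (bc E₀ s) (zero_notMem_bc E₀ s h0)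
    (by rw [bc_card]; exact hs) (by simpa [bc] using hs') (tr_of_notMem ht) g
  exact ⟨σ.restrictScalars k, restrict_mem_fs σ, h1, h2⟩

end ALG
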