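import Pool.Agent.H45.ALG.Swap

/-!
The automorphisms over `κ(t)` act on the roots of `f = t` as the full symmetric group.
-/

set_option linter.style.haveILetI false

namespace ALG

open Polynomial IntermediateField

variable {κ K : Type*} [Field κ] [Field K] [Algebra κ K]

theorem map_mem_RR (s : Finset κ) {t x : K} (σ : Gal(K/κ)) (hσ : σ t = t) (hx : x ∈ RR s t) :
    σ x ∈ RR s t := by
  change aeval (σ x) (ff s) = t
  rw [aeval_algHom_apply, show aeval x (ff s) = t from hx, hσ]

/-- the roots, as a set with an action of the stabiliser of `t` -/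
def RA (s : Finset κ) (t : K) : SubMulAction (MulAction.stabilizer Gal(K/κ) t) K where
  carrier := RR s t
  smul_mem' := fun σ _ hx => map_mem_RR s σ.1 σ.2 hx

theorem full_sym [IsAlgClosed K] (s : Finset κ) (h0 : (0 : κ) ∉ s) (hs : (s.card + 2).Prime)
    (hs' : s.Nonempty) {t : K}
    (ht : Transcendental κ t) [Algebra.IsAlgebraic κ⟮t⟯ K] (g : Equiv.Perm (RR s t)) :
    ∃ σ : Gal(K/κ), σ t = t ∧ ∀ x : RR s t, σ x = g x := by
  classical
  haveI : Finite (RR s t) := RR_finite s t
  haveI : Fintype (RA s t) := @Fintype.ofFinite _ (RR_finite s t)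
  let π := MulAction.toPermHom (MulAction.stabilizer Gal(K/κ) t) (RA s t)
  have hcard : Fintype.card (RA s t) = s.card + 2 := by
    rw [← Nat.card_eq_fintype_card]
    exact RR_ncard s h0 hs' ht
  have hπ : ∀ (σ : MulAction.stabilizer Gal(K/κ) t) (x : RA s t), ((π σ x : RA s t) : K) = σ.1 x :=
    fun σ x => rfl
  have htop : π.range = ⊤ := by
    obtain ⟨σ, β, β', h1, h2, h3, h4, h5, h6, h7⟩ := exists_swap s h0 hs' ht
    have hswap : π ⟨σ, h1⟩ = Equiv.swap (⟨β, h3⟩ : RA s t) ⟨β', h4⟩ := by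
      apply Equiv.ext
      intro x
      apply Subtype.ext
      rw [hπ]
      by_cases hx1 : x = ⟨β, h3⟩
      · rw [hx1, Equiv.swap_apply_left]; exact h5
      · by_cases hx2 : x = ⟨β', h4⟩
        · rw [hx2, Equiv.swap_apply_right]; exact h6
        · rw [Equiv.swap_apply_of_ne_of_ne hx1 hx2]
          exact h7 x x.2 (fun h => hx1 (Subtype.ext h)) (fun h => hx2 (Subtype.ext h))
    haveI : MulAction.IsPretransitive π.range (RA s t) := by
      constructor
      intro x y
      obtain ⟨ρ, hρ1, hρ2⟩ := exists_map_root s ht x.2 y.2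
      exact ⟨⟨π ⟨ρ, hρ1⟩, ⟨⟨ρ, hρ1⟩, rfl⟩⟩, Subtype.ext hρ2⟩
    haveI : Nonempty (RA s t) := ⟨⟨β, h3⟩⟩
    refine Equiv.Perm.subgroup_eq_top_of_swap_mem (by rw [hcard]; exact hs) ?_
      (MonoidHom.mem_range.2 ⟨_, hswap⟩) ⟨_, _, ?_, rfl⟩
    · have h8 := Subgroup.index_dvd_card (MulAction.stabilizer π.range (⟨β, h3⟩ : RA s t))
      rw [MulAction.index_stabilizer_of_transitive, Nat.card_eq_fintype_card,
        Nat.card_eq_fintype_card] at h8
      exact h8
    · intro h
      exact h2 (congrArg Subtype.val h)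
  obtain ⟨σ, hσ⟩ := MonoidHom.mem_range.1 (htop ▸ Subgroup.mem_top (g : Equiv.Perm (RA s t)))
  refine ⟨σ.1, σ.2, fun x => ?_⟩
  exact congrArg (fun q : Equiv.Perm (RA s t) => ((q x : RA s t) : K)) hσ

end ALG
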