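import Pool.Agent.H45.ALG.Setup

/-!
The key step: an automorphism which moves `t` produces a new splitting field.
-/

set_option linter.style.haveILetI false

namespace ALG

open Polynomial IntermediateField

variable {k K : Type*} [Field k] [Field K] [Algebra k K]
variable {m n : ℕ} {x : Fin n → K} {y : Fin m → K} (hmn : m ≤ n) {ℓ : ℕ}

/-- the field generated by the `z_i`, `i ≠ p, q` -/
def KPQ (k : Type*) [Field k] [Algebra k K] (x : Fin n → K) (y : Fin m → K) (p q : Fin n) :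
    IntermediateField k K :=
  adjoin k (Set.range (fun i : {i : Fin n // i ≠ p ∧ i ≠ q} => zz x y i))

theorem y_mem_KPQ {p q j : Fin m} (h : j ≠ p) (h' : j ≠ q) :
    y j ∈ KPQ k x y (Fin.castLE hmn p) (Fin.castLE hmn q) := by
  rw [← zz_castLE (x := x) (y := y) hmn j]
  exact subset_adjoin k _ ⟨⟨_, fun h1 => h (Fin.castLE_injective hmn h1),
    fun h1 => h' (Fin.castLE_injective hmn h1)⟩, rfl⟩

theorem quad_mem_ac {E : IntermediateField k K} {α β δ z : K} (hα : α ∈ E) (hβ : β ∈ E)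
    (hδ : δ ∈ E) (hα0 : α ≠ 0) (hz : α * z ^ 2 + β * z + δ = 0) : z ∈ ac E := by
  rw [mem_ac]
  refine ⟨C (⟨α, hα⟩ : E) * X ^ 2 + C ⟨β, hβ⟩ * X + C ⟨δ, hδ⟩, ?_, ?_⟩
  · intro h
    have h1 : (⟨α, hα⟩ : E) ≠ 0 := fun h2 => hα0 (congrArg Subtype.val h2)
    have h2 := natDegree_quadratic (b := (⟨β, hβ⟩ : E)) (c := (⟨δ, hδ⟩ : E)) h1
    rw [h] at h2
    simp at h2
  · simp only [map_add, map_mul, map_pow, aeval_X, aeval_C]
    exact hz

theorem RR_mem_ac {E : IntermediateField k K} {s : Finset k} {t e : K} (ht : t ∈ E)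
    (he : e ∈ RR s t) : e ∈ ac E := by
  rw [mem_ac]
  refine ⟨(ff s).map (algebraMap k E) - C (⟨t, ht⟩ : E), ?_, ?_⟩
  · have h1 : ((ff s).map (algebraMap k E) - C (⟨t, ht⟩ : E)).natDegree = s.card + 2 := by
      rw [natDegree_sub_C, (ff_monic s).natDegree_map, ff_natDegree]
    intro h2
    rw [h2] at h1
    simp at h1
  · rw [map_sub, aeval_map_algebraMap, aeval_C, show aeval e (ff s) = t from he]
    exact sub_self t

theorem card_roots_quad {α β δ : K} (hα0 : α ≠ 0) (S : Set K)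
    (hS : ∀ z ∈ S, α * z ^ 2 + β * z + δ = 0) : S.ncard ≤ 2 := by
  classical
  have h1 := natDegree_quadratic (b := β) (c := δ) hα0
  have h2 : S ⊆ ((C α * X ^ 2 + C β * X + C δ : K[X]).roots.toFinset : Set K) := by
    intro z hz
    rw [Finset.mem_coe, Multiset.mem_toFinset, mem_roots (by intro h; rw [h] at h1; simp at h1)]
    simpa using hS z hz
  refine (Set.ncard_le_ncard h2 (Finset.finite_toSet _)).trans ?_
  rw [Set.ncard_coe_finset]
  exact (Multiset.toFinset_card_le _).trans ((card_roots' _).trans h1.le)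

theorem key_fix [IsAlgClosed k] [IsAlgClosed K] (hx : IsTranscendenceBasis k x) (hℓ : 1 ≤ ℓ)
    (hy : ∀ j, y j ^ ℓ = x (Fin.castLE hmn j)) (hm : 2 ≤ m) (s : Finset k) (h0 : (0 : k) ∉ s)
    (hs : s.Nonempty) (σ : Gal(K/k)) (hσ : σ ∈ (adjoin k (Set.range x)).fixingSubgroup)
    (hB : ∀ b ∈ (TT k x y).fixingSubgroup, (∀ e ∈ RR s (tt y), b e = e) →
      ∀ e' ∈ RR s (σ (tt y)), b e' = e') : ∀ j, σ (y j) = y j := by
  classical
  by_contra hcon
  push Not at hcon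
  obtain ⟨q, hq⟩ := hcon
  haveI : Nontrivial (Fin m) := Fin.nontrivial_iff_two_le.2 hm
  obtain ⟨p, hpq⟩ := exists_ne q
  -- the multipliers
  have hmult : ∀ j, ∃ a : k, σ (y j) = algebraMap k K a * y j := fun j =>
    exists_algebraMap_of_pow ℓ hℓ (by
      rw [← map_pow, hy]
      exact mem_fs.1 hσ _ (subset_adjoin k _ ⟨_, rfl⟩))
  choose a ha using hmult
  have hy0 : ∀ j, y j ≠ 0 := y_ne_zero hmn hx hℓ hy
  have ha0 : algebraMap k K (a p) ≠ 0 := by
    intro h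
    have h1 := ha p
    rw [h, zero_mul] at h1
    exact hy0 p ((map_eq_zero σ).1 h1)
  have haq : 1 - algebraMap k K (a q) ≠ 0 := by
    intro h
    apply hq
    rw [ha q, ← sub_eq_zero.1 h, one_mul]
  set t := tt y with ht
  set t' := σ t with ht'
  set P := Fin.castLE hmn p with hP
  set Q := Fin.castLE hmn q with hQ
  set κ := KPQ k x y P Q with hκ
  set κ₁ := ac (κ ⊔ k⟮t⟯) with hκ₁
  set κ₂ := κ₁ ⊔ k⟮t'⟯ with hκ₂
  set c := ∏ j ∈ (Finset.univ.erase p).erase q, (1 + y j) with hc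
  set c' := ∏ j ∈ (Finset.univ.erase p).erase q, (1 + algebraMap k K (a j) * y j) with hc'
  have hq_mem : q ∈ Finset.univ.erase p := Finset.mem_erase.2 ⟨hpq.symm, Finset.mem_univ q⟩
  have htc : t = (1 + y p) * ((1 + y q) * c) := by
    rw [ht, tt_eq p, hc, Finset.mul_prod_erase _ (fun j => 1 + y j) hq_mem]
  have ht'c : t' = (1 + algebraMap k K (a p) * y p) * ((1 + algebraMap k K (a q) * y q) * c') := by
    have h1 : t' = ∏ j, (1 + algebraMap k K (a j) * y j) := by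
      rw [ht', ht, tt, map_prod]
      apply Finset.prod_congr rfl
      intro j _
      rw [map_add, map_one, ha]
    rw [h1, hc', Finset.mul_prod_erase _ (fun j => 1 + algebraMap k K (a j) * y j) hq_mem,
      Finset.mul_prod_erase _ (fun j => 1 + algebraMap k K (a j) * y j) (Finset.mem_univ p)]
  have hκκ₂ : κ ≤ κ₂ := (le_sup_left.trans (le_ac _)).trans le_sup_left
  have hκ₁κ₂ : κ₁ ≤ κ₂ := le_sup_left
  have htκ₁ : t ∈ κ₁ := (le_sup_right.trans (le_ac _) : k⟮t⟯ ≤ κ₁) (mem_adjoin_simple_self k t)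
  have htκ₂ : t ∈ κ₂ := hκ₁κ₂ htκ₁
  have ht'κ₂ : t' ∈ κ₂ := (le_sup_right : k⟮t'⟯ ≤ κ₂) (mem_adjoin_simple_self k t')
  have hkκ₂ : ∀ b : k, algebraMap k K b ∈ κ₂ := fun b => IntermediateField.algebraMap_mem κ₂ b
  have hcκ : c ∈ κ := prod_mem (fun j hj => by
    rw [Finset.mem_erase, Finset.mem_erase] at hj
    exact add_mem (one_mem _) (y_mem_KPQ hmn hj.2.1 hj.1))
  have hc'κ : c' ∈ κ := prod_mem (fun j hj => by
    rw [Finset.mem_erase, Finset.mem_erase] at hj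
    exact add_mem (one_mem _) (mul_mem (IntermediateField.algebraMap_mem κ (a j))
      (y_mem_KPQ hmn hj.2.1 hj.1)))
  have hc0 : c ≠ 0 := by
    rw [hc, Finset.prod_ne_zero_iff]
    intro j _
    simpa using one_add_ne_zero hmn hx hy 1 j
  have hc'0 : c' ≠ 0 := by
    rw [hc', Finset.prod_ne_zero_iff]
    intro j _
    exact one_add_ne_zero hmn hx hy (a j) j
  have hyp0 : 1 + y p ≠ 0 := by simpa using one_add_ne_zero hmn hx hy 1 p
  have hyq : y q = t / (c * (1 + y p)) - 1 := by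
    rw [htc]; field_simp; ring
  -- the quadratic equation for `y p` over `κ₂`
  set α := c' * algebraMap k K (a p) * (1 - algebraMap k K (a q)) with hα
  set γ := 1 + algebraMap k K (a q) * (t / c - 1) with hγ
  set β := c' * ((1 - algebraMap k K (a q)) + algebraMap k K (a p) * γ) - t' with hβ
  set δ := c' * γ - t' with hδ
  have hα0 : α ≠ 0 := mul_ne_zero (mul_ne_zero hc'0 ha0) haq
  have hγκ : γ ∈ κ₂ := add_mem (one_mem _) (mul_mem (hkκ₂ _) (sub_mem (div_mem htκ₂ (hκκ₂ hcκ))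
    (one_mem _)))
  have hακ : α ∈ κ₂ := mul_mem (mul_mem (hκκ₂ hc'κ) (hkκ₂ _)) (sub_mem (one_mem _) (hkκ₂ _))
  have hβκ : β ∈ κ₂ := sub_mem (mul_mem (hκκ₂ hc'κ) (add_mem (sub_mem (one_mem _) (hkκ₂ _))
    (mul_mem (hkκ₂ _) hγκ))) ht'κ₂
  have hδκ : δ ∈ κ₂ := sub_mem (mul_mem (hκκ₂ hc'κ) hγκ) ht'κ₂
  have hquad : α * y p ^ 2 + β * y p + δ = 0 := by
    have h1 : t / c = (1 + y p) * (1 + y q) := by
      rw [htc]; field_simp
    rw [hα, hβ, hδ, hγ, h1, ht'c]
    ring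
  have hypac : y p ∈ ac κ₂ := quad_mem_ac hακ hβκ hδκ hα0 hquad
  -- `T ≤ κ₂(y p)`
  have hTT : TT k x y ≤ κ₂ ⊔ k⟮y p⟯ := by
    rw [TT, adjoin_le_iff]
    have hypm : y p ∈ κ₂ ⊔ k⟮y p⟯ :=
      (le_sup_right : k⟮y p⟯ ≤ κ₂ ⊔ k⟮y p⟯) (mem_adjoin_simple_self k _)
    have hle : κ₂ ≤ κ₂ ⊔ k⟮y p⟯ := le_sup_left
    rintro _ ⟨i, rfl⟩
    by_cases hiP : i = P
    · rw [hiP, hP, zz_castLE]
      exact hypm
    · by_cases hiQ : i = Q
      · rw [hiQ, hQ, zz_castLE, SetLike.mem_coe, hyq]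
        exact sub_mem (div_mem (hle htκ₂) (mul_mem (hle (hκκ₂ hcκ)) (add_mem (one_mem _) hypm)))
          (one_mem _)
      · exact hle (hκκ₂ (subset_adjoin k _ ⟨⟨i, hiP, hiQ⟩, rfl⟩))
  have hacκ₂ : ac κ₂ = ⊤ := by
    rw [eq_top_iff, ← ac_TT hmn hx hy]
    refine ac_le (hTT.trans (sup_le (le_ac _) ?_))
    rwa [adjoin_simple_le_iff]
  -- `t'` is transcendental over `κ₁`
  have ht'tr : t' ∉ ac κ₁ := by
    intro h
    rw [hκ₁, ac_ac] at h
    have h1 : κ₂ ≤ ac (κ ⊔ k⟮t⟯) := sup_le le_rfl (by rwa [adjoin_simple_le_iff])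
    have h2 : ac (κ ⊔ k⟮t⟯) = ⊤ := by
      rw [eq_top_iff, ← hacκ₂]
      exact ac_le h1
    have h3 : κ ⊔ k⟮t⟯ = adjoin k (Set.range (fun i : Option {i : Fin n // i ≠ P ∧ i ≠ Q} =>
        i.elim t (fun j => zz x y j))) := by
      apply le_antisymm
      · refine sup_le ?_ ?_
        · rw [hκ, KPQ, adjoin_le_iff]
          rintro _ ⟨i, rfl⟩
          exact subset_adjoin k _ ⟨some i, rfl⟩
        · rw [adjoin_simple_le_iff]
          exact subset_adjoin k _ ⟨none, rfl⟩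
      · rw [adjoin_le_iff]
        rintro _ ⟨i, rfl⟩
        cases i with
        | none => exact (le_sup_right : k⟮t⟯ ≤ κ ⊔ k⟮t⟯) (mem_adjoin_simple_self k t)
        | some i => exact (le_sup_left : κ ≤ κ ⊔ k⟮t⟯) (subset_adjoin k _ ⟨i, rfl⟩)
    rw [h3] at h2
    have h4 := le_card_of_ac_top hx _ h2
    have h5 : Nat.card (Option {i : Fin n // i ≠ P ∧ i ≠ Q}) = n - 1 := by
      have hPQ : P ≠ Q := fun h => hpq (Fin.castLE_injective hmn h)
      rw [Finite.card_option, Nat.card_eq_fintype_card, Fintype.card_subtype]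
      have h6 : (Finset.univ.filter (fun i : Fin n => i ≠ P ∧ i ≠ Q)) =
          (Finset.univ.erase P).erase Q := by
        ext i; simp [and_comm]
      rw [h6, Finset.card_erase_of_mem (Finset.mem_erase.2 ⟨hPQ.symm, Finset.mem_univ Q⟩),
        Finset.card_erase_of_mem (Finset.mem_univ P), Finset.card_univ, Fintype.card_fin]
      omega
    omega
  -- pigeonhole
  clear_value α β δ
  have hcard := sym_card κ₁ ht'tr s h0 hs
  have hne : (RR s t').Nonempty := Set.nonempty_of_ncard_ne_zero (by rw [hcard]; omega)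
  obtain ⟨e₀, he₀⟩ := hne
  have hD : ∀ e : RR s t', ∃ τ ∈ κ₁.fixingSubgroup, τ t' = t' ∧ τ e₀ = e := fun e =>
    sym_trans κ₁ ht'tr (by rw [← hκ₂]; exact hacκ₂) s he₀ e.2
  choose τ hτ1 hτ2 hτ3 using hD
  have hτκ₂ : ∀ e, τ e ∈ κ₂.fixingSubgroup := fun e => by
    rw [hκ₂, fixingSubgroup_sup, Subgroup.mem_inf]
    exact ⟨hτ1 e, mem_fs_adjoin.2 (by rintro _ rfl; exact hτ2 e)⟩
  have hinj : Function.Injective (fun e : RR s t' => τ e (y p)) := by
    intro e₁ e₂ h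
    simp only at h
    set b := (τ e₂)⁻¹ * τ e₁ with hb
    have hbκ₂ : b ∈ κ₂.fixingSubgroup := mul_mem (inv_mem (hτκ₂ e₂)) (hτκ₂ e₁)
    have hby : b (y p) = y p := by
      rw [hb, AlgEquiv.mul_apply, h, ← AlgEquiv.mul_apply, inv_mul_cancel, AlgEquiv.one_apply]
    have hbT : b ∈ (TT k x y).fixingSubgroup := by
      apply fixingSubgroup_antitone hTT
      rw [fixingSubgroup_sup, Subgroup.mem_inf]
      exact ⟨hbκ₂, mem_fs_adjoin.2 (by rintro _ rfl; exact hby)⟩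
    have hbR : ∀ e ∈ RR s t, b e = e := by
      intro e he
      apply mem_fs.1 hbκ₂
      apply hκ₁κ₂
      rw [hκ₁]
      exact RR_mem_ac ((le_sup_right : k⟮t⟯ ≤ κ ⊔ k⟮t⟯) (mem_adjoin_simple_self k t)) he
    have h1 := hB b hbT hbR e₀ he₀
    rw [hb, AlgEquiv.mul_apply, hτ3] at h1
    have h2 : τ e₂ e₀ = e₁ := by
      rw [← h1, ← AlgEquiv.mul_apply, mul_inv_cancel, AlgEquiv.one_apply]
    apply Subtype.ext
    rw [← h2, hτ3]
  have h1 : (Set.range (fun e : RR s t' => τ e (y p))).ncard ≤ 2 := by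
    apply card_roots_quad hα0
    rintro _ ⟨e, rfl⟩
    have h2 := congrArg (τ e) hquad
    rw [map_add, map_add, map_mul, map_mul, map_pow, map_zero, mem_fs.1 (hτκ₂ e) _ hακ,
      mem_fs.1 (hτκ₂ e) _ hβκ, mem_fs.1 (hτκ₂ e) _ hδκ] at h2
    exact h2
  have h2 : (Set.range (fun e : RR s t' => τ e (y p))).ncard = (RR s t').ncard := by
    rw [← Set.image_univ, Set.ncard_image_of_injective _ hinj, Set.ncard_univ]
    rfl
  rw [h2, hcard] at h1
  have h3 := hs.card_pos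
  omega

end ALG
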