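import Mathlib

/-!
Local factorisation of `f - X` over the power series ring, `f = Y^2 ∏ (Y - a)`.
-/

set_option linter.style.haveILetI false

namespace ALG

open Polynomial

variable {κ : Type*} [Field κ]

/-- the polynomial `Y^2 ∏_{a ∈ s} (Y - a)` -/
noncomputable def ff (s : Finset κ) : κ[X] := X ^ 2 * ∏ a ∈ s, (X - C a)

theorem ff_monic (s : Finset κ) : (ff s).Monic :=
  (monic_X_pow 2).mul (monic_prod_of_monic _ _ (fun a _ => monic_X_sub_C a))

theorem ff_natDegree (s : Finset κ) : (ff s).natDegree = s.card + 2 := by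
  rw [ff, (monic_X_pow 2).natDegree_mul (monic_prod_of_monic _ _ (fun a _ => monic_X_sub_C a)),
    natDegree_X_pow, natDegree_prod_of_monic _ _ (fun a _ => monic_X_sub_C a)]
  simp [add_comm]

theorem ff_eval (s : Finset κ) {a : κ} (ha : a ∈ s) : (ff s).eval a = 0 := by
  rw [ff, eval_mul, eval_prod, Finset.prod_eq_zero ha (by simp), mul_zero]

theorem ff_eval_zero (s : Finset κ) : (ff s).eval 0 = 0 := by
  rw [ff, eval_mul, eval_pow, eval_X]; ring

theorem ff_derivative (s : Finset κ) (h0 : (0 : κ) ∉ s) {a : κ} (ha : a ∈ s) :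
    (derivative (ff s)).eval a ≠ 0 := by
  classical
  have h1 : ff s = (X - C a) * (X ^ 2 * ∏ b ∈ s.erase a, (X - C b)) := by
    rw [ff, ← Finset.mul_prod_erase s _ ha]; ring
  rw [h1, derivative_mul, eval_add, eval_mul, eval_mul]
  simp only [derivative_sub, derivative_X, derivative_C, sub_zero, eval_one, one_mul, eval_sub,
    eval_X, eval_C, sub_self, zero_mul, add_zero, eval_mul, eval_pow, eval_prod]
  apply mul_ne_zero
  · apply pow_ne_zero
    rintro rfl
    exact h0 ha
  · rw [Finset.prod_ne_zero_iff]
    intro b hb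
    rw [Finset.mem_erase] at hb
    exact sub_ne_zero.2 (Ne.symm hb.1)

/-- `f - X` over the power series ring -/
noncomputable def FF (s : Finset κ) : (PowerSeries κ)[X] :=
  (ff s).map PowerSeries.C - C (PowerSeries.X)

theorem FF_monic (s : Finset κ) : (FF s).Monic := by
  apply (ff_monic s).map PowerSeries.C |>.sub_of_left
  refine lt_of_le_of_lt degree_C_le ?_
  rw [(ff_monic s).degree_map, degree_eq_natDegree (ff_monic s).ne_zero, ff_natDegree]
  exact_mod_cast Nat.succ_pos _

/-- Hensel -/
theorem exists_root (s : Finset κ) (h0 : (0 : κ) ∉ s) {a : κ} (ha : a ∈ s) :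
    ∃ b : PowerSeries κ, (FF s).IsRoot b ∧ PowerSeries.constantCoeff b = a := by
  have hH : HenselianRing (PowerSeries κ) (Ideal.span {PowerSeries.X}) := inferInstance
  obtain ⟨b, hb1, hb2⟩ := hH.is_henselian (FF s) (FF_monic s) (PowerSeries.C a) (by
    rw [FF, eval_sub, eval_C, eval_map, eval₂_at_apply, ff_eval s ha, map_zero, zero_sub]
    exact neg_mem (Ideal.subset_span rfl)) (by
    rw [FF, derivative_sub, derivative_C, sub_zero, derivative_map, eval_map, eval₂_at_apply]
    exact ((ff_derivative s h0 ha).isUnit.map PowerSeries.C).map _)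
  refine ⟨b, hb1, ?_⟩
  rw [Ideal.mem_span_singleton, PowerSeries.X_dvd_iff, map_sub] at hb2
  simpa [sub_eq_zero] using hb2

/-- local factorisation -/
theorem local_factor (s : Finset κ) (h0 : (0 : κ) ∉ s) :
    ∃ (b : s → PowerSeries κ) (Q : (PowerSeries κ)[X]), Function.Injective b ∧
      FF s = Q * ∏ a, (X - C (b a)) ∧ Q.Monic ∧ Q.natDegree = 2 ∧ Irreducible Q := by
  classical
  choose b hb1 hb2 using fun a : s => exists_root s h0 a.2
  have hinj : Function.Injective b := by
    intro a a' h
    apply Subtype.ext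
    rw [← hb2 a, h, hb2 a']
  have hdvd : (∏ a, (X - C (b a))) ∣ FF s := by
    have h1 : (Finset.univ.val.map b).map (fun a => X - C a) =
        Finset.univ.val.map (fun a => X - C (b a)) := by
      rw [Multiset.map_map]; rfl
    have h2 : ((Finset.univ.val.map b).map (fun a => (X - C a : (PowerSeries κ)[X]))).prod ∣ FF s := by
      rw [Multiset.prod_X_sub_C_dvd_iff_le_roots (FF_monic s).ne_zero]
      rw [Multiset.le_iff_subset]
      · intro c hc
        rw [Multiset.mem_map] at hc
        obtain ⟨a, -, rfl⟩ := hc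
        rw [mem_roots (FF_monic s).ne_zero]
        exact hb1 a
      · exact Finset.univ.nodup.map hinj
    rw [h1] at h2
    exact h2
  obtain ⟨Q, hQ⟩ := hdvd
  have hPm : (∏ a, (X - C (b a))).Monic := monic_prod_of_monic _ _ (fun a _ => monic_X_sub_C _)
  have hQm : Q.Monic := by
    apply hPm.of_mul_monic_left
    rw [← hQ]
    exact FF_monic s
  have hQd : Q.natDegree = 2 := by
    have h1 : (FF s).natDegree = s.card + 2 := by
      rw [FF, natDegree_sub_C, (ff_monic s).natDegree_map, ff_natDegree]
    rw [hQ, hPm.natDegree_mul hQm, natDegree_prod_of_monic _ _ (fun a _ => monic_X_sub_C _)] at h1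
    simp at h1
    omega
  refine ⟨b, Q, hinj, by rw [hQ, mul_comm], hQm, hQd, ?_⟩
  -- reduction modulo `X`
  have hred : Q.map PowerSeries.constantCoeff = X ^ 2 := by
    have h1 : (FF s).map PowerSeries.constantCoeff = ff s := by
      rw [FF, Polynomial.map_sub, map_map, map_C, PowerSeries.constantCoeff_X, C_0, sub_zero]
      have : (PowerSeries.constantCoeff (R := κ)).comp PowerSeries.C = RingHom.id κ := by
        ext; simp
      rw [this, Polynomial.map_id]
    rw [hQ, Polynomial.map_mul, Polynomial.map_prod] at h1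
    have h2 : ∏ a : s, (X - C (b a)).map PowerSeries.constantCoeff = ∏ a ∈ s, (X - C a) := by
      rw [← Finset.prod_coe_sort s]
      apply Finset.prod_congr rfl
      intro a _
      rw [Polynomial.map_sub, map_X, map_C, hb2]
    rw [h2, ff, mul_comm (X ^ 2)] at h1
    exact mul_left_cancel₀ (monic_prod_of_monic _ _ (fun a _ => monic_X_sub_C a)).ne_zero h1
  set P : Ideal (PowerSeries κ) := Ideal.span {PowerSeries.X} with hP
  have hPprime : P.IsPrime := (Ideal.span_singleton_prime PowerSeries.X_ne_zero).2 PowerSeries.X_prime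
  apply irreducible_of_eisenstein_criterion hPprime
  · rw [hQm.leadingCoeff]
    exact fun h => hPprime.ne_top ((Ideal.eq_top_iff_one _).2 h)
  · intro n hn
    rw [degree_eq_natDegree hQm.ne_zero, hQd] at hn
    have hn2 : n < 2 := by exact_mod_cast hn
    rw [hP, Ideal.mem_span_singleton, PowerSeries.X_dvd_iff]
    have := congrArg (fun p => p.coeff n) hred
    simp only [coeff_map, coeff_X_pow] at this
    rw [this, if_neg (by omega)]
  · rw [degree_eq_natDegree hQm.ne_zero, hQd]; norm_num
  · intro h
    have h1 := congrArg (fun p => p.eval 0) hQ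
    simp only [eval_mul, eval_prod, eval_sub, eval_X, eval_C, FF, eval_map, zero_sub] at h1
    have h2 : (ff s).eval₂ PowerSeries.C 0 = 0 := by
      rw [show (0 : PowerSeries κ) = PowerSeries.C 0 by simp, eval₂_at_apply, ff_eval_zero]
    rw [h2, zero_sub, ← coeff_zero_eq_eval_zero] at h1
    have h3 : (PowerSeries.X : PowerSeries κ) ∈ P ^ 2 := by
      have h4 : -(PowerSeries.X : PowerSeries κ) ∈ P ^ 2 := by
        rw [h1]; exact Ideal.mul_mem_left _ _ h
      simpa using neg_mem h4
    rw [hP, Ideal.span_singleton_pow, Ideal.mem_span_singleton] at h3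
    rw [PowerSeries.X_pow_dvd_iff] at h3
    have h5 := h3 1 (by norm_num)
    simp at h5
  · exact hQm.isPrimitive

end ALG
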