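import Pool.Agent.H45.ALG.Bridge

/-!
The elements `y_j = x_j^{1/ℓ}` and `t = ∏ (1 + y_j)`.
-/

set_option linter.style.haveILetI false

namespace ALG

open Polynomial IntermediateField

variable {k K : Type*} [Field k] [Field K] [Algebra k K]

theorem ac_top_of_basis {n : ℕ} {x : Fin n → K} (hx : IsTranscendenceBasis k x) :
    ac (adjoin k (Set.range x)) = ⊤ := by
  haveI := hx.isAlgebraic_field
  rw [eq_top_iff]
  intro z _
  exact mem_ac.2 (Algebra.IsAlgebraic.isAlgebraic z)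

/-- counting -/
theorem le_card_of_ac_top {n : ℕ} {x : Fin n → K} (hx : IsTranscendenceBasis k x) {ι : Type*}
    [Finite ι] (w : ι → K) (hw : ac (adjoin k (Set.range w)) = ⊤) : n ≤ Nat.card ι :=
  card_le_of_indep hx.1 w (fun _ => hw ▸ mem_top)

/-- the mixed basis -/
def zz {m n : ℕ} (x : Fin n → K) (y : Fin m → K) : Fin n → K :=
  fun i => if h : (i : ℕ) < m then y ⟨i, h⟩ else x i

variable {m n : ℕ} {x : Fin n → K} {y : Fin m → K} (hmn : m ≤ n) {ℓ : ℕ}

omit [Field K] in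
theorem zz_castLE (j : Fin m) : zz x y (Fin.castLE hmn j) = y j := by
  have : ((Fin.castLE hmn j : Fin n) : ℕ) < m := j.2
  rw [zz, dif_pos this]
  rfl

/-- the field `T = k(z)` -/
def TT (k : Type*) [Field k] [Algebra k K] (x : Fin n → K) (y : Fin m → K) :
    IntermediateField k K := adjoin k (Set.range (zz x y))

include hmn in
theorem y_mem_TT (j : Fin m) : y j ∈ TT k x y := by
  rw [← zz_castLE (x := x) (y := y) hmn j]
  exact subset_adjoin k _ ⟨_, rfl⟩

theorem F_le_TT (hy : ∀ j, y j ^ ℓ = x (Fin.castLE hmn j)) :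
    adjoin k (Set.range x) ≤ TT k x y := by
  rw [adjoin_le_iff]
  rintro _ ⟨i, rfl⟩
  by_cases h : (i : ℕ) < m
  · have h1 := hy ⟨i, h⟩
    have h2 : Fin.castLE hmn ⟨i, h⟩ = i := rfl
    rw [h2] at h1
    rw [← h1]
    exact pow_mem (y_mem_TT hmn _) _
  · have h1 : zz x y i = x i := by rw [zz, dif_neg h]
    rw [← h1]
    exact subset_adjoin k _ ⟨_, rfl⟩

theorem ac_TT (hx : IsTranscendenceBasis k x) (hy : ∀ j, y j ^ ℓ = x (Fin.castLE hmn j)) :
    ac (TT k x y) = ⊤ := by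
  rw [eq_top_iff, ← ac_top_of_basis hx]
  exact ac_mono (F_le_TT hmn hy)

theorem one_add_ne_zero (hx : IsTranscendenceBasis k x)
    (hy : ∀ j, y j ^ ℓ = x (Fin.castLE hmn j)) (a : k) (j : Fin m) :
    1 + algebraMap k K a * y j ≠ 0 := by
  intro h
  have ha : algebraMap k K a ≠ 0 := by
    intro h0
    rw [h0, zero_mul, add_zero] at h
    exact one_ne_zero h
  have h1 : y j = algebraMap k K (-a⁻¹) := by
    rw [map_neg, map_inv₀]
    field_simp
    linear_combination h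
  have h2 := hx.1.transcendental (Fin.castLE hmn j)
  apply h2
  rw [← hy, h1, ← map_pow]
  exact isAlgebraic_algebraMap _

theorem y_ne_zero (hx : IsTranscendenceBasis k x) (hℓ : 1 ≤ ℓ)
    (hy : ∀ j, y j ^ ℓ = x (Fin.castLE hmn j)) (j : Fin m) : y j ≠ 0 := by
  intro h
  have h2 := hx.1.transcendental (Fin.castLE hmn j)
  apply h2
  rw [← hy, h, zero_pow (by omega)]
  exact isAlgebraic_zero

/-- the element `t` -/
def tt (y : Fin m → K) : K := ∏ j, (1 + y j)

theorem tt_eq (p : Fin m) : tt y = (1 + y p) * ∏ j ∈ Finset.univ.erase p, (1 + y j) :=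
  (Finset.mul_prod_erase _ _ (Finset.mem_univ p)).symm

/-- the field generated by the `z_i`, `i ≠ p` -/
def KP (k : Type*) [Field k] [Algebra k K] (x : Fin n → K) (y : Fin m → K) (p : Fin n) :
    IntermediateField k K :=
  adjoin k (Set.range (fun i : {i : Fin n // i ≠ p} => zz x y i))

theorem y_mem_KP {p j : Fin m} (h : j ≠ p) : y j ∈ KP k x y (Fin.castLE hmn p) := by
  rw [← zz_castLE (x := x) (y := y) hmn j]
  exact subset_adjoin k _ ⟨⟨_, fun h' => h (Fin.castLE_injective hmn h')⟩, rfl⟩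

theorem TT_le_KP (hx : IsTranscendenceBasis k x) (hy : ∀ j, y j ^ ℓ = x (Fin.castLE hmn j))
    (p : Fin m) : TT k x y ≤ KP k x y (Fin.castLE hmn p) ⊔ k⟮tt y⟯ := by
  rw [TT, adjoin_le_iff]
  rintro _ ⟨i, rfl⟩
  by_cases h : i = Fin.castLE hmn p
  · subst h
    rw [zz_castLE]
    have h1 : ∏ j ∈ Finset.univ.erase p, (1 + y j) ≠ 0 := by
      rw [Finset.prod_ne_zero_iff]
      intro j _
      simpa using one_add_ne_zero hmn hx hy 1 j
    have h2 : y p = tt y / ∏ j ∈ Finset.univ.erase p, (1 + y j) - 1 := by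
      rw [tt_eq p, mul_div_cancel_right₀ _ h1]; ring
    rw [h2]
    have h3 : tt y ∈ KP k x y (Fin.castLE hmn p) ⊔ k⟮tt y⟯ :=
      (le_sup_right : k⟮tt y⟯ ≤ _) (mem_adjoin_simple_self k _)
    have h4 : ∏ j ∈ Finset.univ.erase p, (1 + y j) ∈ KP k x y (Fin.castLE hmn p) ⊔ k⟮tt y⟯ := by
      apply prod_mem
      intro j hj
      exact add_mem (one_mem _) ((le_sup_left : KP k x y (Fin.castLE hmn p) ≤ _)
        (y_mem_KP hmn (Finset.ne_of_mem_erase hj)))
    exact sub_mem (div_mem h3 h4) (one_mem _)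
  · exact (le_sup_left : KP k x y (Fin.castLE hmn p) ≤ _) (subset_adjoin k _ ⟨⟨i, h⟩, rfl⟩)

theorem ac_KP_sup (hx : IsTranscendenceBasis k x) (hy : ∀ j, y j ^ ℓ = x (Fin.castLE hmn j))
    (p : Fin m) : ac (KP k x y (Fin.castLE hmn p) ⊔ k⟮tt y⟯) = ⊤ := by
  rw [eq_top_iff, ← ac_TT hmn hx hy]
  exact ac_mono (TT_le_KP hmn hx hy p)

theorem tt_notMem (hx : IsTranscendenceBasis k x) (hy : ∀ j, y j ^ ℓ = x (Fin.castLE hmn j))
    (p : Fin m) : tt y ∉ ac (KP k x y (Fin.castLE hmn p)) := by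
  intro h
  have h1 : ac (KP k x y (Fin.castLE hmn p)) = ⊤ := by
    rw [eq_top_iff, ← ac_KP_sup hmn hx hy p]
    refine ac_le (sup_le (le_ac _) ?_)
    rwa [adjoin_simple_le_iff]
  have h2 := le_card_of_ac_top hx _ h1
  have h3 : Nat.card {i : Fin n // i ≠ Fin.castLE hmn p} = n - 1 := by
    rw [Nat.card_eq_fintype_card, Fintype.card_subtype_compl]
    simp
  have h4 : 0 < n := lt_of_lt_of_le p.pos hmn
  omega

end ALG
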