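import Pool.Agent.H45.ALG.Sym

/-!
A swap of two roots of `f = t`, from the power series ring.
-/

set_option linter.style.haveILetI false

namespace ALG

open Polynomial IntermediateField

variable {κ K : Type*} [Field κ] [Field K] [Algebra κ K]

/-- over an algebraically closed overfield of the field of Laurent series -/
theorem local_swap (s : Finset κ) (h0 : (0 : κ) ∉ s) (hs : s.Nonempty)
    {L Ω : Type*} [Field L] [Field Ω] [Algebra κ L] [Algebra (PowerSeries κ) L]
    [IsFractionRing (PowerSeries κ) L] [IsScalarTower κ (PowerSeries κ) L]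
    [IsAlgClosed Ω] [Algebra L Ω] [Algebra κ Ω]
    [IsScalarTower κ L Ω] [Algebra.IsAlgebraic L Ω] (T : Ω)
    (hT : T = algebraMap L Ω (algebraMap (PowerSeries κ) L
      PowerSeries.X)) (hTt : Transcendental κ T) :
    ∃ (τ : Gal(Ω/L)) (β β' : Ω), β ≠ β' ∧ β ∈ RR s T ∧ β' ∈ RR s T ∧ τ β = β' ∧
      τ β' = β ∧ ∀ x ∈ RR s T, x ≠ β → x ≠ β' → τ x = x := by
  classical
  obtain ⟨b, Q, hb, hF, hQm, hQd, hQi⟩ := local_factor s h0
  let j : PowerSeries κ →+* Ω := (algebraMap L Ω).comp (algebraMap (PowerSeries κ) L)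
  -- the polynomial over `Ω`
  have hjC : ∀ c : κ, j (PowerSeries.C c) = algebraMap κ Ω c := by
    intro c
    rw [IsScalarTower.algebraMap_apply κ L Ω, IsScalarTower.algebraMap_apply κ (PowerSeries κ) L]
    rfl
  have hFG : (FF s).map j = GG s T := by
    rw [FF, GG, Polynomial.map_sub, Polynomial.map_map, map_C]
    congr 2
    · ext c; exact hjC c
    · exact hT.symm
  have hroot : ∀ x, x ∈ RR s T ↔ (Q.map j).eval x = 0 ∨ ∃ a, x = j (b a) := by
    intro x
    change aeval x (ff s) = T ↔ _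
    rw [← GG_isRoot, ← hFG, hF, Polynomial.map_mul, Polynomial.map_prod, IsRoot.def, eval_mul,
      eval_prod, mul_eq_zero, Finset.prod_eq_zero_iff]
    simp only [Finset.mem_univ, true_and, Polynomial.map_sub, map_X, map_C, eval_sub, eval_X,
      eval_C, sub_eq_zero]
  -- the two roots of `Q`
  have hQΩm : (Q.map j).Monic := hQm.map j
  have hQΩd : (Q.map j).natDegree = 2 := by rw [hQm.natDegree_map, hQd]
  have hcard : (Q.map j).roots.card = 2 := by
    rw [IsAlgClosed.card_roots_eq_natDegree, hQΩd]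
  obtain ⟨β, β', hββ⟩ := Multiset.card_eq_two.1 hcard
  have hQroot : ∀ x, (Q.map j).eval x = 0 ↔ x = β ∨ x = β' := by
    intro x
    rw [← IsRoot.def, ← mem_roots hQΩm.ne_zero, hββ]
    simp
  have hβ : β ∈ RR s T := (hroot β).2 (Or.inl ((hQroot β).2 (Or.inl rfl)))
  have hβ' : β' ∈ RR s T := (hroot β').2 (Or.inl ((hQroot β').2 (Or.inr rfl)))
  have hne : β ≠ β' := by
    intro h
    have hle : (Q.map j).roots ≤ (GG s T).roots := by
      apply roots.le_of_dvd (GG_monic s T).ne_zero
      rw [← hFG, hF, Polynomial.map_mul]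
      exact dvd_mul_right _ _
    have hnd := Multiset.nodup_of_le hle (GG_nodup s h0 hs hTt)
    rw [hββ, h] at hnd
    simp at hnd
  -- the minimal polynomial
  have hQL : Irreducible (Q.map (algebraMap (PowerSeries κ) L)) :=
    (hQm.irreducible_iff_irreducible_map_fraction_map).1 hQi
  have hmin : ∀ x, (Q.map j).eval x = 0 → minpoly L x = Q.map (algebraMap (PowerSeries κ) L) := by
    intro x hx
    symm
    apply minpoly.eq_of_irreducible_of_monic hQL _ (hQm.map _)
    rw [aeval_def, eval₂_map, ← eval_map]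
    exact hx
  haveI : IsAlgClosure L Ω := ⟨inferInstance, inferInstance⟩
  haveI : Normal L Ω := IsAlgClosure.normal L Ω
  have hconj : IsConjRoot L β' β := by
    rw [isConjRoot_def, hmin β ((hQroot β).2 (Or.inl rfl)), hmin β' ((hQroot β').2 (Or.inr rfl))]
  obtain ⟨τ, hτ⟩ := hconj.exists_algEquiv
  have hτQ : ∀ x, (Q.map j).eval x = 0 → (Q.map j).eval (τ x) = 0 := by
    intro x hx
    have h1 : aeval x (Q.map (algebraMap (PowerSeries κ) L)) = 0 := by
      rw [aeval_def, eval₂_map, ← eval_map]; exact hx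
    have h2 : aeval (τ x) (Q.map (algebraMap (PowerSeries κ) L)) = 0 := by
      rw [aeval_algHom_apply, h1, map_zero]
    rw [aeval_def, eval₂_map, ← eval_map] at h2
    exact h2
  refine ⟨τ, β, β', hne, hβ, hβ', hτ, ?_, ?_⟩
  · rcases (hQroot (τ β')).1 (hτQ β' ((hQroot β').2 (Or.inr rfl))) with h | h
    · exact h
    · exfalso
      rw [← hτ] at h
      exact hne (hτ ▸ (τ.injective h).symm)
  · intro x hx h1 h2
    rcases (hroot x).1 hx with h | ⟨a, rfl⟩
    · rcases (hQroot x).1 h with h | h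
      · exact absurd h h1
      · exact absurd h h2
    · exact τ.commutes _

/-- the embedding of `κ(t)` in the Laurent series -/
theorem exists_laurent {t : K} (ht : Transcendental κ t) {L : Type*} [Field L] [Algebra κ L]
    [Algebra (PowerSeries κ) L]
    [IsFractionRing (PowerSeries κ) L] [IsScalarTower κ (PowerSeries κ) L] :
    ∃ φ : κ⟮t⟯ →+* L, (∀ c : κ, φ (algebraMap κ κ⟮t⟯ c) = algebraMap κ L c) ∧
      φ (AdjoinSimple.gen κ t) = algebraMap (PowerSeries κ) L PowerSeries.X := by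
  let e := (RatFunc.algEquivOfTranscendental t ht).symm
  let g : κ[X] →+* L := (algebraMap (PowerSeries κ) L).comp
    (Polynomial.coeToPowerSeries.ringHom)
  have hg : Function.Injective g := by
    apply Function.Injective.comp (IsFractionRing.injective (PowerSeries κ) L)
    exact Polynomial.coe_injective κ
  let h : RatFunc κ →+* L := IsFractionRing.lift hg
  have hh : ∀ p : κ[X], h (algebraMap κ[X] (RatFunc κ) p) = g p := fun p =>
    IsFractionRing.lift_algebraMap hg p
  refine ⟨h.comp (e : κ⟮t⟯ →+* RatFunc κ), ?_, ?_⟩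
  · intro c
    rw [RingHom.comp_apply]
    have h1 : (e : κ⟮t⟯ →+* RatFunc κ) (algebraMap κ κ⟮t⟯ c) = algebraMap κ (RatFunc κ) c :=
      e.commutes c
    rw [h1, IsScalarTower.algebraMap_apply κ κ[X] (RatFunc κ), hh,
      IsScalarTower.algebraMap_apply κ (PowerSeries κ) L]
    simp [g]
  · rw [RingHom.comp_apply]
    have h1 : (e : κ⟮t⟯ →+* RatFunc κ) (AdjoinSimple.gen κ t) = RatFunc.X :=
      RatFunc.algEquivOfTranscendental_symm_gen t ht
    rw [h1, ← RatFunc.algebraMap_X, hh]
    simp [g]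

/-- a swap -/
theorem exists_swap_aux [IsAlgClosed K] (s : Finset κ) (h0 : (0 : κ) ∉ s) (hs : s.Nonempty)
    {P L Ω : Type*} [Field P] [Field L] [Field Ω] [Algebra κ P] [Algebra P K] [IsScalarTower κ P K]
    [Algebra.IsAlgebraic P K] [Algebra κ L] [Algebra (PowerSeries κ) L]
    [IsFractionRing (PowerSeries κ) L] [IsScalarTower κ (PowerSeries κ) L] [Algebra P L]
    [IsScalarTower κ P L] [IsAlgClosed Ω] [Algebra L Ω] [Algebra.IsAlgebraic L Ω] [Algebra κ Ω]
    [IsScalarTower κ L Ω] (t : P)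
    (ht : Transcendental κ (algebraMap P K t))
    (htX : algebraMap P L t = algebraMap (PowerSeries κ) L PowerSeries.X) :
    ∃ (σ : Gal(K/P)) (β β' : K), β ≠ β' ∧ β ∈ RR s (algebraMap P K t) ∧
      β' ∈ RR s (algebraMap P K t) ∧ σ β = β' ∧
      σ β' = β ∧ ∀ x ∈ RR s (algebraMap P K t), x ≠ β → x ≠ β' → σ x = x := by
  letI a2 : Algebra P Ω := ((algebraMap L Ω).comp (algebraMap P L)).toAlgebra
  haveI i1 : IsScalarTower P L Ω := .of_algebraMap_eq (fun _ => rfl)
  haveI i3 : IsScalarTower κ P Ω := .of_algebraMap_eq (fun c => by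
    rw [IsScalarTower.algebraMap_apply κ L Ω,
      IsScalarTower.algebraMap_apply P L Ω, IsScalarTower.algebraMap_apply κ P L])
  let ι : K →ₐ[P] Ω := IsAlgClosed.lift
  letI a3 : Algebra K Ω := ι.toRingHom.toAlgebra
  haveI i4 : IsScalarTower P K Ω := .of_algebraMap_eq (fun x => (ι.commutes x).symm)
  haveI i5 : IsScalarTower κ K Ω := .of_algebraMap_eq (fun c => by
    rw [IsScalarTower.algebraMap_apply κ P Ω, IsScalarTower.algebraMap_apply P K Ω,
      IsScalarTower.algebraMap_apply κ P K])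
  haveI : IsAlgClosure P K := ⟨inferInstance, inferInstance⟩
  haveI : Normal P K := IsAlgClosure.normal P K
  set t' : K := algebraMap P K t with ht'
  set T : Ω := algebraMap K Ω t' with hTdef
  have hT : T = algebraMap L Ω (algebraMap (PowerSeries κ) L
      PowerSeries.X) := by
    rw [← htX, hTdef, ht', ← IsScalarTower.algebraMap_apply P K Ω,
      ← IsScalarTower.algebraMap_apply P L Ω]
  have hTt : Transcendental κ T :=
    (transcendental_algebraMap_iff (algebraMap K Ω).injective).2 ht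
  obtain ⟨τ, β, β', hne, hβ, hβ', h1, h2, h3⟩ := local_swap s h0 hs T hT hTt
  have hpre : ∀ x ∈ RR s T, ∃ y ∈ RR s t', algebraMap K Ω y = x := by
    intro x hx
    have hG : (GG s t').map (algebraMap K Ω) = GG s T := by
      rw [GG, GG, Polynomial.map_sub, Polynomial.map_map, map_C,
        ← IsScalarTower.algebraMap_eq κ K Ω]
    have hroot : ((GG s t').map (algebraMap K Ω)).IsRoot x := by
      rw [hG, GG_isRoot]; exact hx
    obtain ⟨y, hy⟩ := (IsAlgClosed.splits (GG s t')).mem_range_of_isRoot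
      (GG_monic s t').ne_zero hroot
    refine ⟨y, ?_, hy⟩
    apply (algebraMap K Ω).injective
    rw [← hTdef, ← aeval_algebraMap_apply, hy]
    exact hx
  have hmem : ∀ y ∈ RR s t', algebraMap K Ω y ∈ RR s T := by
    intro y hy
    change aeval (algebraMap K Ω y) (ff s) = T
    rw [aeval_algebraMap_apply, show aeval y (ff s) = t' from hy]
  obtain ⟨γ, hγ, hγβ⟩ := hpre β hβ
  obtain ⟨γ', hγ', hγβ'⟩ := hpre β' hβ'
  let σ : Gal(K/P) := (τ.restrictScalars P).restrictNormal K
  have hσ : ∀ x, algebraMap K Ω (σ x) = τ (algebraMap K Ω x) := fun x =>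
    (τ.restrictScalars P).restrictNormal_commutes K x
  refine ⟨σ, γ, γ', ?_, hγ, hγ', ?_, ?_, ?_⟩
  · rintro rfl
    exact hne (hγβ.symm.trans hγβ')
  · apply (algebraMap K Ω).injective
    rw [hσ, hγβ, h1, hγβ']
  · apply (algebraMap K Ω).injective
    rw [hσ, hγβ', h2, hγβ]
  · intro x hx h4 h5
    apply (algebraMap K Ω).injective
    rw [hσ]
    apply h3 _ (hmem x hx)
    · rw [← hγβ]
      exact fun h => h4 ((algebraMap K Ω).injective h)
    · rw [← hγβ']
      exact fun h => h5 ((algebraMap K Ω).injective h)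

theorem exists_swap [IsAlgClosed K] (s : Finset κ) (h0 : (0 : κ) ∉ s) (hs : s.Nonempty) {t : K}
    (ht : Transcendental κ t) [Algebra.IsAlgebraic κ⟮t⟯ K] :
    ∃ (σ : Gal(K/κ)) (β β' : K), σ t = t ∧ β ≠ β' ∧ β ∈ RR s t ∧ β' ∈ RR s t ∧ σ β = β' ∧
      σ β' = β ∧ ∀ x ∈ RR s t, x ≠ β → x ≠ β' → σ x = x := by
  let L := FractionRing (PowerSeries κ)
  obtain ⟨φ, hφC, hφX⟩ := exists_laurent (L := L) ht
  letI a1 : Algebra κ⟮t⟯ L := φ.toAlgebra
  haveI i2 : IsScalarTower κ κ⟮t⟯ L := .of_algebraMap_eq (fun c => (hφC c).symm)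
  obtain ⟨σ, β, β', h1, h2, h3, h4, h5, h6⟩ :=
    exists_swap_aux (κ := κ) (K := K) (P := κ⟮t⟯) (L := L) (Ω := AlgebraicClosure L) s h0 hs
      (AdjoinSimple.gen κ t) ht hφX
  exact ⟨σ.restrictScalars κ, β, β', σ.commutes (AdjoinSimple.gen κ t), h1, h2, h3, h4, h5, h6⟩

end ALG
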