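import Pool.Agent.H45.ALG.Loc
import Pool.Agent.H45.ALG.Fix

/-!
The automorphisms over `κ(t)` act on the roots of `f = t` as the full symmetric group.
-/

set_option linter.style.haveILetI false

namespace ALG

open Polynomial IntermediateField

variable {κ K : Type*} [Field κ] [Field K] [Algebra κ K]

theorem isAlgebraic_aeval {x : K} (hx : IsAlgebraic κ x) (f : κ[X]) :
    IsAlgebraic κ (aeval x f) := by
  have h1 := adjoin_le_integralClosure hx.isIntegral
  have h2 : aeval x f ∈ Algebra.adjoin κ {x} := aeval_mem_adjoin_singleton κ x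
  exact (h1 h2 : IsIntegral κ _).isAlgebraic

theorem transcendental_of_root (s : Finset κ) {t x : K} (ht : Transcendental κ t)
    (hx : aeval x (ff s) = t) : Transcendental κ x := by
  intro hxa
  apply ht
  rw [← hx]
  exact isAlgebraic_aeval hxa _

theorem derivative_ne_zero (s : Finset κ) (h0 : (0 : κ) ∉ s) (hs : s.Nonempty) :
    derivative (ff s) ≠ 0 := by
  obtain ⟨a, ha⟩ := hs
  intro h
  exact ff_derivative s h0 ha (by rw [h, eval_zero])

theorem not_double (s : Finset κ) (h0 : (0 : κ) ∉ s) (hs : s.Nonempty) {t x : K}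
    (ht : Transcendental κ t) (hx : aeval x (ff s) = t) : aeval x (derivative (ff s)) ≠ 0 := by
  intro h
  exact transcendental_of_root s ht hx ⟨_, derivative_ne_zero s h0 hs, h⟩

/-- the polynomial `f - t` over `K` -/
noncomputable def GG (s : Finset κ) (t : K) : K[X] := (ff s).map (algebraMap κ K) - C t

theorem GG_monic (s : Finset κ) (t : K) : (GG s t).Monic := by
  apply (ff_monic s).map _ |>.sub_of_left
  refine lt_of_le_of_lt degree_C_le ?_
  rw [(ff_monic s).degree_map, degree_eq_natDegree (ff_monic s).ne_zero, ff_natDegree]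
  exact_mod_cast Nat.succ_pos _

theorem GG_natDegree (s : Finset κ) (t : K) : (GG s t).natDegree = s.card + 2 := by
  rw [GG, natDegree_sub_C, (ff_monic s).natDegree_map, ff_natDegree]

theorem GG_isRoot (s : Finset κ) (t : K) {x : K} :
    (GG s t).IsRoot x ↔ aeval x (ff s) = t := by
  rw [GG, IsRoot.def, eval_sub, eval_C, eval_map_algebraMap, sub_eq_zero]

theorem GG_nodup (s : Finset κ) (h0 : (0 : κ) ∉ s) (hs : s.Nonempty) {t : K}
    (ht : Transcendental κ t) : (GG s t).roots.Nodup := by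
  classical
  rw [Multiset.nodup_iff_count_le_one]
  intro x
  rw [count_roots]
  by_contra hcon
  push Not at hcon
  rw [one_lt_rootMultiplicity_iff_isRoot (GG_monic s t).ne_zero] at hcon
  obtain ⟨h1, h2⟩ := hcon
  rw [GG_isRoot] at h1
  apply not_double s h0 hs ht h1
  rw [GG, derivative_sub, derivative_C, sub_zero, derivative_map, IsRoot.def,
    eval_map_algebraMap] at h2
  exact h2

/-- the set of roots of `f = t` -/
def RR (s : Finset κ) (t : K) : Set K := {x | aeval x (ff s) = t}

theorem RR_eq [IsAlgClosed K] (s : Finset κ) (t : K) [DecidableEq K] :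
    RR s t = ((GG s t).roots.toFinset : Set K) := by
  ext x
  rw [Finset.mem_coe, Multiset.mem_toFinset, mem_roots (GG_monic s t).ne_zero, GG_isRoot]
  rfl

theorem RR_finite [IsAlgClosed K] (s : Finset κ) (t : K) : (RR s t).Finite := by
  classical
  rw [RR_eq]; exact Finset.finite_toSet _

theorem RR_ncard [IsAlgClosed K] (s : Finset κ) (h0 : (0 : κ) ∉ s) (hs : s.Nonempty) {t : K}
    (ht : Transcendental κ t) : (RR s t).ncard = s.card + 2 := by
  classical
  rw [RR_eq, Set.ncard_coe_finset, Multiset.toFinset_card_of_nodup (GG_nodup s h0 hs ht),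
    IsAlgClosed.card_roots_eq_natDegree, GG_natDegree]

theorem isAlgebraic_of_mem {x t : K} (h : t ∈ κ⟮x⟯) [Algebra.IsAlgebraic κ⟮t⟯ K] :
    Algebra.IsAlgebraic κ⟮x⟯ K :=
  ⟨fun z => IsAlgebraic.tower_top_of_subalgebra_le (adjoin_simple_le_iff.mpr h)
    (Algebra.IsAlgebraic.isAlgebraic (R := κ⟮t⟯) z)⟩

theorem aeval_mem_simple (x : K) (f : κ[X]) : aeval x f ∈ κ⟮x⟯ := by
  rw [mem_adjoin_simple_iff]
  exact ⟨f, 1, by rw [map_one, div_one]⟩

/-- an automorphism taking one transcendental element to another -/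
theorem exists_map_transcendental [IsAlgClosed K] {x y : K} (hx : Transcendental κ x)
    (hy : Transcendental κ y) [Algebra.IsAlgebraic κ⟮x⟯ K] [Algebra.IsAlgebraic κ⟮y⟯ K] :
    ∃ σ : Gal(K/κ), σ x = y := by
  haveI : IsAlgClosure κ⟮x⟯ K := ⟨inferInstance, inferInstance⟩
  haveI : IsAlgClosure κ⟮y⟯ K := ⟨inferInstance, inferInstance⟩
  let E : κ⟮x⟯ ≃ₐ[κ] κ⟮y⟯ := (RatFunc.algEquivOfTranscendental x hx).symm.trans
    (RatFunc.algEquivOfTranscendental y hy)
  have hE : (E (AdjoinSimple.gen κ x) : K) = y := by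
    simp only [E, AlgEquiv.trans_apply, RatFunc.algEquivOfTranscendental_symm_gen,
      RatFunc.algEquivOfTranscendental_X]
  let e := IsAlgClosure.equivOfEquiv K K E.toRingEquiv
  have he : ∀ z : κ⟮x⟯, e (z : K) = (E z : K) := fun z =>
    IsAlgClosure.equivOfEquiv_algebraMap K K E.toRingEquiv z
  refine ⟨AlgEquiv.ofRingEquiv (f := e) ?_, ?_⟩
  · intro c
    have h1 := he (algebraMap κ κ⟮x⟯ c)
    rw [E.commutes] at h1
    exact h1
  · have h1 := he (AdjoinSimple.gen κ x)
    rw [hE] at h1
    exact h1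

/-- transitivity -/
theorem exists_map_root [IsAlgClosed K] (s : Finset κ) {t : K}
    (ht : Transcendental κ t) [Algebra.IsAlgebraic κ⟮t⟯ K] {x y : K}
    (hx : x ∈ RR s t) (hy : y ∈ RR s t) : ∃ σ : Gal(K/κ), σ t = t ∧ σ x = y := by
  have key : ∀ z ∈ RR s t, Transcendental κ z ∧ t ∈ κ⟮z⟯ := by
    intro z hz
    refine ⟨transcendental_of_root s ht hz, ?_⟩
    have h1 := aeval_mem_simple z (ff s)
    rwa [show aeval z (ff s) = t from hz] at h1
  haveI := isAlgebraic_of_mem (key x hx).2
  haveI := isAlgebraic_of_mem (key y hy).2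
  obtain ⟨σ, hσ⟩ := exists_map_transcendental (key x hx).1 (key y hy).1
  refine ⟨σ, ?_, hσ⟩
  have h1 : aeval x (ff s) = t := hx
  have h2 : aeval y (ff s) = t := hy
  conv_lhs => rw [← h1]
  rw [← aeval_algHom_apply, hσ, h2]

end ALG
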